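import Pool.Agent.Lib_MP_7ab33c.Large

/-!
# The numerical checks for `t < 40`
-/

set_option autoImplicit false
set_option maxRecDepth 1000000

namespace Pool.Agent.GridMinor

theorem chk2 : chk 2 8 8 = true := by decide +kernel
theorem chk3 : chk 3 18 14 = true := by decide +kernel
theorem chk4 : chk 4 32 22 = true := by decide +kernel
theorem chk5 : chk 5 51 31 = true := by decide +kernel
theorem chk6 : chk 6 73 41 = true := by decide +kernel
theorem chk7 : chk 7 100 56 = true := by decide +kernel
theorem chk8 : chk 8 131 71 = true := by decide +kernel
theorem chk9 : chk 9 166 88 = true := by decide +kernel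
theorem chk10 : chk 10 205 110 = true := by decide +kernel
theorem chk11 : chk 11 248 130 = true := by decide +kernel
theorem chk12 : chk 12 295 153 = true := by decide +kernel
theorem chk13 : chk 13 346 182 = true := by decide +kernel
theorem chk14 : chk 14 401 208 = true := by decide +kernel
theorem chk15 : chk 15 461 244 = true := by decide +kernel
theorem chk16 : chk 16 524 279 = true := by decide +kernel
theorem chk17 : chk 17 592 317 = true := by decide +kernel
theorem chk18 : chk 18 664 359 = true := by decide +kernel
theorem chk19 : chk 19 740 405 = true := by decide +kernel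
theorem chk20 : chk 20 820 449 = true := by decide +kernel
theorem chk21 : chk 21 904 497 = true := by decide +kernel
theorem chk22 : chk 22 992 550 = true := by decide +kernel
theorem chk23 : chk 23 1084 601 = true := by decide +kernel
theorem chk24 : chk 24 1180 656 = true := by decide +kernel
theorem chk25 : chk 25 1281 718 = true := by decide +kernel
theorem chk26 : chk 26 1385 776 = true := by decide +kernel
theorem chk27 : chk 27 1494 841 = true := by decide +kernel
theorem chk28 : chk 28 1607 909 = true := by decide +kernel
theorem chk29 : chk 29 1724 977 = true := by decide +kernel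
theorem chk30 : chk 30 1845 1049 = true := by decide +kernel
theorem chk31 : chk 31 1970 1124 = true := by decide +kernel
theorem chk32 : chk 32 2099 1199 = true := by decide +kernel
theorem chk33 : chk 33 2232 1277 = true := by decide +kernel
theorem chk34 : chk 34 2369 1359 = true := by decide +kernel
theorem chk35 : chk 35 2511 1443 = true := by decide +kernel
theorem chk36 : chk 36 2656 1528 = true := by decide +kernel
theorem chk37 : chk 37 2806 1619 = true := by decide +kernel
theorem chk38 : chk 38 2960 1710 = true := by decide +kernel
theorem chk39 : chk 39 3118 1805 = true := by decide +kernel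

theorem start2 : ∀ i ≤ 2 * 8 - 8, 2 * gs 2 8 i ≤ (2 * 8 - i) * 8 := by decide

theorem grid_mid {V : Type*} {t : ℕ} (ht : 2 ≤ t) (ht2 : t < 40) (G : SimpleGraph V) (A : Finset V)
    (hA : 1 ≤ A.card) (hs : 2 * (41 * (t * t) / 20) * A.card ≤ sm G A) : GM G A t := by
  interval_cases t
  · exact grid_small (K := 8) (m1 := 8) (by norm_num) (by norm_num) (by norm_num) (by norm_num) chk2 start2 G A hA (by simpa using hs)
  · exact grid_small' (K := 18) (m1 := 14) (by norm_num) (by norm_num) (by norm_num) (by norm_num) chk3 G A hA (by simpa using hs)
  · exact grid_small' (K := 32) (m1 := 22) (by norm_num) (by norm_num) (by norm_num) (by norm_num) chk4 G A hA (by simpa using hs)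
  · exact grid_small' (K := 51) (m1 := 31) (by norm_num) (by norm_num) (by norm_num) (by norm_num) chk5 G A hA (by simpa using hs)
  · exact grid_small' (K := 73) (m1 := 41) (by norm_num) (by norm_num) (by norm_num) (by norm_num) chk6 G A hA (by simpa using hs)
  · exact grid_small' (K := 100) (m1 := 56) (by norm_num) (by norm_num) (by norm_num) (by norm_num) chk7 G A hA (by simpa using hs)
  · exact grid_small' (K := 131) (m1 := 71) (by norm_num) (by norm_num) (by norm_num) (by norm_num) chk8 G A hA (by simpa using hs)
  · exact grid_small' (K := 166) (m1 := 88) (by norm_num) (by norm_num) (by norm_num) (by norm_num) chk9 G A hA (by simpa using hs)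
  · exact grid_small' (K := 205) (m1 := 110) (by norm_num) (by norm_num) (by norm_num) (by norm_num) chk10 G A hA (by simpa using hs)
  · exact grid_small' (K := 248) (m1 := 130) (by norm_num) (by norm_num) (by norm_num) (by norm_num) chk11 G A hA (by simpa using hs)
  · exact grid_small' (K := 295) (m1 := 153) (by norm_num) (by norm_num) (by norm_num) (by norm_num) chk12 G A hA (by simpa using hs)
  · exact grid_small' (K := 346) (m1 := 182) (by norm_num) (by norm_num) (by norm_num) (by norm_num) chk13 G A hA (by simpa using hs)
  · exact grid_small' (K := 401) (m1 := 208) (by norm_num) (by norm_num) (by norm_num) (by norm_num) chk14 G A hA (by simpa using hs)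
  · exact grid_small' (K := 461) (m1 := 244) (by norm_num) (by norm_num) (by norm_num) (by norm_num) chk15 G A hA (by simpa using hs)
  · exact grid_small' (K := 524) (m1 := 279) (by norm_num) (by norm_num) (by norm_num) (by norm_num) chk16 G A hA (by simpa using hs)
  · exact grid_small' (K := 592) (m1 := 317) (by norm_num) (by norm_num) (by norm_num) (by norm_num) chk17 G A hA (by simpa using hs)
  · exact grid_small' (K := 664) (m1 := 359) (by norm_num) (by norm_num) (by norm_num) (by norm_num) chk18 G A hA (by simpa using hs)
  · exact grid_small' (K := 740) (m1 := 405) (by norm_num) (by norm_num) (by norm_num) (by norm_num) chk19 G A hA (by simpa using hs)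
  · exact grid_small' (K := 820) (m1 := 449) (by norm_num) (by norm_num) (by norm_num) (by norm_num) chk20 G A hA (by simpa using hs)
  · exact grid_small' (K := 904) (m1 := 497) (by norm_num) (by norm_num) (by norm_num) (by norm_num) chk21 G A hA (by simpa using hs)
  · exact grid_small' (K := 992) (m1 := 550) (by norm_num) (by norm_num) (by norm_num) (by norm_num) chk22 G A hA (by simpa using hs)
  · exact grid_small' (K := 1084) (m1 := 601) (by norm_num) (by norm_num) (by norm_num) (by norm_num) chk23 G A hA (by simpa using hs)
  · exact grid_small' (K := 1180) (m1 := 656) (by norm_num) (by norm_num) (by norm_num) (by norm_num) chk24 G A hA (by simpa using hs)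
  · exact grid_small' (K := 1281) (m1 := 718) (by norm_num) (by norm_num) (by norm_num) (by norm_num) chk25 G A hA (by simpa using hs)
  · exact grid_small' (K := 1385) (m1 := 776) (by norm_num) (by norm_num) (by norm_num) (by norm_num) chk26 G A hA (by simpa using hs)
  · exact grid_small' (K := 1494) (m1 := 841) (by norm_num) (by norm_num) (by norm_num) (by norm_num) chk27 G A hA (by simpa using hs)
  · exact grid_small' (K := 1607) (m1 := 909) (by norm_num) (by norm_num) (by norm_num) (by norm_num) chk28 G A hA (by simpa using hs)
  · exact grid_small' (K := 1724) (m1 := 977) (by norm_num) (by norm_num) (by norm_num) (by norm_num) chk29 G A hA (by simpa using hs)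
  · exact grid_small' (K := 1845) (m1 := 1049) (by norm_num) (by norm_num) (by norm_num) (by norm_num) chk30 G A hA (by simpa using hs)
  · exact grid_small' (K := 1970) (m1 := 1124) (by norm_num) (by norm_num) (by norm_num) (by norm_num) chk31 G A hA (by simpa using hs)
  · exact grid_small' (K := 2099) (m1 := 1199) (by norm_num) (by norm_num) (by norm_num) (by norm_num) chk32 G A hA (by simpa using hs)
  · exact grid_small' (K := 2232) (m1 := 1277) (by norm_num) (by norm_num) (by norm_num) (by norm_num) chk33 G A hA (by simpa using hs)
  · exact grid_small' (K := 2369) (m1 := 1359) (by norm_num) (by norm_num) (by norm_num) (by norm_num) chk34 G A hA (by simpa using hs)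
  · exact grid_small' (K := 2511) (m1 := 1443) (by norm_num) (by norm_num) (by norm_num) (by norm_num) chk35 G A hA (by simpa using hs)
  · exact grid_small' (K := 2656) (m1 := 1528) (by norm_num) (by norm_num) (by norm_num) (by norm_num) chk36 G A hA (by simpa using hs)
  · exact grid_small' (K := 2806) (m1 := 1619) (by norm_num) (by norm_num) (by norm_num) (by norm_num) chk37 G A hA (by simpa using hs)
  · exact grid_small' (K := 2960) (m1 := 1710) (by norm_num) (by norm_num) (by norm_num) (by norm_num) chk38 G A hA (by simpa using hs)
  · exact grid_small' (K := 3118) (m1 := 1805) (by norm_num) (by norm_num) (by norm_num) (by norm_num) chk39 G A hA (by simpa using hs)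

theorem grid_one {V : Type*} (G : SimpleGraph V) (A : Finset V) (hA : 1 ≤ A.card) : GM G A 1 := by
  obtain ⟨x, hx⟩ := Finset.card_pos.1 (by omega : 0 < A.card)
  refine ⟨fun _ => {x}, ⟨?_, ?_, ?_, ?_, ?_⟩⟩
  · intro r _; exact Finset.singleton_subset_iff.2 hx
  · intro r _; exact linked_single G x
  · intro r hr s hs hrs; omega
  · intro r hr h; omega
  · intro r hr h; omega

/-- every graph of average degree at least `4.1 t^2` has a model of the grid -/
theorem grid_all {V : Type*} {t : ℕ} (ht : 1 ≤ t) (G : SimpleGraph V) (A : Finset V)
    (hA : 1 ≤ A.card) (hs : 2 * (41 * (t * t) / 20) * A.card ≤ sm G A) : GM G A t := by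
  rcases Nat.lt_or_ge t 40 with h | h
  · rcases Nat.lt_or_ge t 2 with h1 | h1
    · have : t = 1 := by omega
      subst this
      exact grid_one G A hA
    · exact grid_mid h1 h G A hA hs
  · exact grid_large h G A hA hs

end Pool.Agent.GridMinor
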