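import Pool.Agent.Lib_MP_7ab33c.Induct

/-!
# The embedding lemma
-/

set_option autoImplicit false

namespace Pool.Agent.GridMinor

open Finset Classical

variable {V : Type*}

theorem linked_single (G : SimpleGraph V) (y : V) : Linked G {y} := by
  refine ⟨singleton_nonempty _, fun X hX h1 h2 => ?_⟩
  exfalso
  rcases Finset.subset_singleton_iff.1 hX with h | h
  · rw [h] at h1; exact not_nonempty_empty h1
  · exact h2 h

theorem linked_insert {G : SimpleGraph V} {S : Finset V} (hS : Linked G S) {x s : V} (hs : s ∈ S)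
    (hxs : G.Adj x s) : Linked G (insert x S) := by
  refine ⟨insert_nonempty _ _, fun X hX h1 h2 => ?_⟩
  by_cases hxX : x ∈ X
  · by_cases hall : S ⊆ X
    · exfalso
      apply h2
      apply Subset.antisymm hX
      exact insert_subset hxX hall
    · by_cases hemp : (X ∩ S).Nonempty
      · obtain ⟨a, ha, b, hb, hab⟩ := hS.2 (X ∩ S) inter_subset_right hemp (by
          intro h
          apply hall
          rw [← h]; exact inter_subset_left)
        refine ⟨a, (mem_inter.1 ha).1, b, ?_, hab⟩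
        rw [mem_sdiff, mem_inter] at hb
        rw [mem_sdiff]
        exact ⟨mem_insert_of_mem hb.1, fun h => hb.2 ⟨h, hb.1⟩⟩
      · refine ⟨x, hxX, s, ?_, hxs⟩
        rw [mem_sdiff]
        exact ⟨mem_insert_of_mem hs, fun h => hemp ⟨s, mem_inter.2 ⟨h, hs⟩⟩⟩
  · have hXS : X ⊆ S := fun y hy => (mem_insert.1 (hX hy)).resolve_left (fun h => hxX (h ▸ hy))
    by_cases hall : X = S
    · refine ⟨s, hall ▸ hs, x, ?_, hxs.symm⟩
      rw [mem_sdiff]
      exact ⟨mem_insert_self _ _, hxX⟩
    · obtain ⟨a, ha, b, hb, hab⟩ := hS.2 X hXS h1 hall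
      rw [mem_sdiff] at hb
      exact ⟨a, ha, b, mem_sdiff.2 ⟨mem_insert_of_mem hb.1, hb.2⟩, hab⟩

theorem PM.ext {G : SimpleGraph V} {A : Finset V} {t q : ℕ} {μ : ℕ → Finset V} (ht : 1 ≤ t)
    (h : PM G A t q μ) (S : Finset V) (hS : S ⊆ A) (hL : Linked G S)
    (hD : ∀ r < q, Disjoint (μ r) S)
    (hleft : q % t ≠ 0 → ∃ x ∈ μ (q - 1), ∃ y ∈ S, G.Adj x y)
    (hup : t ≤ q → ∃ x ∈ μ (q - t), ∃ y ∈ S, G.Adj x y) :
    PM G A t (q + 1) (Function.update μ q S) := by
  have hne : ∀ r < q, Function.update μ q S r = μ r := fun r hr =>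
    Function.update_of_ne (by omega) _ _
  have hq : Function.update μ q S q = S := Function.update_self _ _ _
  refine ⟨?_, ?_, ?_, ?_, ?_⟩
  · intro r hr
    rcases Nat.lt_succ_iff_lt_or_eq.1 hr with h1 | h1
    · rw [hne r h1]; exact h.sub r h1
    · rw [h1, hq]; exact hS
  · intro r hr
    rcases Nat.lt_succ_iff_lt_or_eq.1 hr with h1 | h1
    · rw [hne r h1]; exact h.linked r h1
    · rw [h1, hq]; exact hL
  · intro r hr s hs hrs
    rcases Nat.lt_succ_iff_lt_or_eq.1 hr with h1 | h1 <;>
      rcases Nat.lt_succ_iff_lt_or_eq.1 hs with h2 | h2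
    · rw [hne r h1, hne s h2]; exact h.disj r h1 s h2 hrs
    · rw [hne r h1, h2, hq]; exact hD r h1
    · rw [hne s h2, h1, hq]; exact (hD s h2).symm
    · omega
  · intro r hr hrt
    rcases Nat.lt_succ_iff_lt_or_eq.1 hr with h1 | h1
    · rw [hne r h1, hne (r - 1) (by omega)]; exact h.left r h1 hrt
    · rw [h1] at hrt
      have hq0 : q ≠ 0 := by
        intro h0; rw [h0] at hrt; exact hrt (Nat.zero_mod _)
      rw [h1, hq, hne (q - 1) (by omega)]
      exact hleft hrt
  · intro r hr hrt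
    rcases Nat.lt_succ_iff_lt_or_eq.1 hr with h1 | h1
    · rw [hne r h1, hne (r - t) (by omega)]; exact h.up r h1 hrt
    · rw [h1] at hrt
      rw [h1, hq, hne (q - t) (by omega)]
      exact hup hrt

/-- `r` is the left or the upper neighbour of `q` -/
def back (t q r : ℕ) : Prop := (q % t ≠ 0 ∧ r + 1 = q) ∨ r + t = q

/-- injective embedding of the first `k` positions -/
structure Emb (G : SimpleGraph V) (X : Finset V) (t k : ℕ) (φ : ℕ → V) : Prop where
  mem : ∀ q < k, φ q ∈ X
  inj : ∀ q < k, ∀ r < k, φ q = φ r → q = r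
  adj : ∀ q < k, ∀ r, back t q r → G.Adj (φ r) (φ q)

theorem back_lt {t q r : ℕ} (ht : 1 ≤ t) (h : back t q r) : r < q := by
  rcases h with h | h <;> omega

theorem Emb.ext {G : SimpleGraph V} {X : Finset V} {t k : ℕ} {φ : ℕ → V} (ht : 1 ≤ t)
    (h : Emb G X t k φ) {y : V} (hy : y ∈ X) (hyf : ∀ q < k, φ q ≠ y)
    (hadj : ∀ r, back t k r → G.Adj (φ r) y) : Emb G X t (k + 1) (Function.update φ k y) := by
  have hne : ∀ r < k, Function.update φ k y r = φ r := fun r hr =>
    Function.update_of_ne (by omega) _ _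
  have hq : Function.update φ k y k = y := Function.update_self _ _ _
  refine ⟨?_, ?_, ?_⟩
  · intro r hr
    rcases Nat.lt_succ_iff_lt_or_eq.1 hr with h1 | h1
    · rw [hne r h1]; exact h.mem r h1
    · rw [h1, hq]; exact hy
  · intro r hr s hs hrs
    rcases Nat.lt_succ_iff_lt_or_eq.1 hr with h1 | h1 <;>
      rcases Nat.lt_succ_iff_lt_or_eq.1 hs with h2 | h2
    · rw [hne r h1, hne s h2] at hrs; exact h.inj r h1 s h2 hrs
    · rw [hne r h1, h2, hq] at hrs; exact absurd hrs (hyf r h1)
    · rw [hne s h2, h1, hq] at hrs; exact absurd hrs.symm (hyf s h2)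
    · omega
  · intro q hq' r hb
    have hrq := back_lt ht hb
    rcases Nat.lt_succ_iff_lt_or_eq.1 hq' with h1 | h1
    · rw [hne q h1, hne r (by omega)]; exact h.adj q h1 r hb
    · subst h1
      rw [hq, hne r hrq]; exact hadj r hb

theorem Emb.swap {G : SimpleGraph V} {X : Finset V} {t k : ℕ} {φ : ℕ → V} (ht : 1 ≤ t)
    (h : Emb G X t k φ) {y : V} (hy : y ∈ X) (hyf : ∀ q < k, φ q ≠ y) {w : ℕ} (hw : w < k)
    (hz : ∀ r, back t k r → G.Adj (φ r) (φ w))
    (hok : ∀ r < k, (back t w r ∨ back t r w) → G.Adj y (φ r)) :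
    Emb G X t (k + 1) (Function.update (Function.update φ w y) k (φ w)) := by
  set ψ := Function.update (Function.update φ w y) k (φ w) with hψ
  have hk : ψ k = φ w := Function.update_self _ _ _
  have hψw : ψ w = y := by
    rw [hψ, Function.update_of_ne (by omega), Function.update_self]
  have hne : ∀ r < k, r ≠ w → ψ r = φ r := fun r hr hrw => by
    rw [hψ, Function.update_of_ne (by omega), Function.update_of_ne hrw]
  have hval : ∀ r < k + 1, (r = k ∧ ψ r = φ w) ∨ (r = w ∧ ψ r = y) ∨
      (r < k ∧ r ≠ w ∧ ψ r = φ r) := by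
    intro r hr
    by_cases h1 : r = k
    · left; exact ⟨h1, h1 ▸ hk⟩
    · by_cases h2 : r = w
      · right; left; exact ⟨h2, h2 ▸ hψw⟩
      · right; right; exact ⟨by omega, h2, hne r (by omega) h2⟩
  refine ⟨?_, ?_, ?_⟩
  · intro r hr
    rcases hval r hr with ⟨_, h2⟩ | ⟨_, h2⟩ | ⟨h1, _, h2⟩
    · rw [h2]; exact h.mem w hw
    · rw [h2]; exact hy
    · rw [h2]; exact h.mem r h1
  · intro r hr s hs hrs
    rcases hval r hr with ⟨h1, h2⟩ | ⟨h1, h2⟩ | ⟨h1, h1', h2⟩ <;>
      rcases hval s hs with ⟨h3, h4⟩ | ⟨h3, h4⟩ | ⟨h3, h3', h4⟩ <;> rw [h2, h4] at hrs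
    · omega
    · exact absurd hrs (hyf w hw)
    · exact absurd (h.inj w hw s h3 hrs).symm h3'
    · exact absurd hrs.symm (hyf w hw)
    · omega
    · exact absurd hrs.symm (hyf s h3)
    · exact absurd (h.inj r h1 w hw hrs) h1'
    · exact absurd hrs (hyf r h1)
    · exact h.inj r h1 s h3 hrs
  · intro q hq' r hb
    have hrq := back_lt ht hb
    rcases Nat.lt_succ_iff_lt_or_eq.1 hq' with h1 | h1
    · by_cases hqw : q = w
      · subst hqw
        rw [hψw, hne r (by omega) (by omega)]
        exact (hok r (by omega) (Or.inl hb)).symm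
      · by_cases hrw : r = w
        · subst hrw
          rw [hψw, hne q h1 hqw]
          exact hok q h1 (Or.inr hb)
        · rw [hne q h1 hqw, hne r (by omega) hrw]
          exact h.adj q h1 r hb
    · subst h1
      have hrw : r ≠ w := by
        intro e
        have := hz r hb
        rw [e] at this
        exact (G.loopless.irrefl _) this
      rw [hk, hne r hrq hrw]
      exact hz r hb

/-- number of non-neighbours of `a` in `C` -/
noncomputable def nn (G : SimpleGraph V) (a : V) (C : Finset V) : ℕ := (C.filter (fun y => ¬ G.Adj a y)).card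

theorem pick1 {G : SimpleGraph V} {a : V} {C : Finset V} (h : nn G a C < C.card) :
    ∃ y ∈ C, G.Adj a y := by
  by_contra hcon
  push Not at hcon
  have : C.filter (fun y => ¬ G.Adj a y) = C := filter_true_of_mem hcon
  unfold nn at h
  rw [this] at h
  omega

theorem pick2 {G : SimpleGraph V} {a b : V} {C : Finset V} (h : nn G a C + nn G b C < C.card) :
    ∃ y ∈ C, G.Adj a y ∧ G.Adj b y := by
  by_contra hcon
  push Not at hcon
  have : C ⊆ C.filter (fun y => ¬ G.Adj a y) ∪ C.filter (fun y => ¬ G.Adj b y) := by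
    intro y hy
    rw [mem_union, mem_filter, mem_filter]
    by_cases h1 : G.Adj a y
    · right; exact ⟨hy, hcon y hy h1⟩
    · left; exact ⟨hy, h1⟩
  have h1 := card_le_card this
  have h2 := card_union_le (C.filter (fun y => ¬ G.Adj a y)) (C.filter (fun y => ¬ G.Adj b y))
  unfold nn at h
  omega

theorem nn_mono {G : SimpleGraph V} {a : V} {C D : Finset V} (h : C ⊆ D) : nn G a C ≤ nn G a D :=
  card_le_card (filter_subset_filter _ h)

end Pool.Agent.GridMinor
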