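import Mathlib

/-!
# Definitions for the grid minor constant
-/

set_option autoImplicit false

namespace Pool.Agent.GridMinor

/-- `H` is a minor of `G`: there are pairwise disjoint nonempty connected vertex sets `B w` of `G`,
one for each vertex `w` of `H`, with an edge of `G` between `B w` and `B w'` whenever `w w'` is an
edge of `H`. -/
def IsMinor {W V : Type*} (H : SimpleGraph W) (G : SimpleGraph V) : Prop :=
  ∃ B : W → Set V, (∀ w, (G.induce (B w)).Connected) ∧
    (∀ w w', w ≠ w' → Disjoint (B w) (B w')) ∧
    (∀ w w', H.Adj w w' → ∃ x ∈ B w, ∃ y ∈ B w', G.Adj x y)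

/-- the `t × t` grid: the Cartesian product of two paths on `t` vertices -/
def grid (t : ℕ) : SimpleGraph (Fin t × Fin t) :=
  (SimpleGraph.pathGraph t).boxProd (SimpleGraph.pathGraph t)

/-- average degree of a graph on `Fin n` -/
noncomputable def avgDeg {n : ℕ} (G : SimpleGraph (Fin n)) : ℝ := 2 * (G.edgeSet.ncard : ℝ) / n

/-- `c` is grid-forcing: for every `t ≥ 1` every finite graph (with at least one vertex) of average
degree at least `c t^2` has the `t × t` grid as a minor -/
def GridForcing (c : ℝ) : Prop :=
  0 < c ∧ ∀ t : ℕ, 1 ≤ t → ∀ n : ℕ, 1 ≤ n → ∀ G : SimpleGraph (Fin n),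
    c * (t : ℝ) ^ 2 ≤ avgDeg G → IsMinor (grid t) G

/-- the constant `c^*`: the infimum of the grid-forcing constants -/
noncomputable def cStar : ℝ := sInf {c : ℝ | GridForcing c}

end Pool.Agent.GridMinor
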