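import Pool.Agent.Lib_MP_7ab33c.Checks
import Pool.Agent.Lib_MP_7ab33c.GDefs

/-!
# From branch sets to minors
-/

set_option autoImplicit false

namespace Pool.Agent.GridMinor

open Finset Classical

theorem Linked.connected {V : Type*} {G : SimpleGraph V} {S : Finset V} (h : Linked G S) :
    (G.induce (S : Set V)).Connected := by
  obtain ⟨hne, hcut⟩ := h
  have hpre : (G.induce (S : Set V)).Preconnected := by
    rintro ⟨a, ha⟩ ⟨b, hb⟩
    by_contra hcon
    set X := S.filter (fun y => ∃ hy : y ∈ (S : Set V), (G.induce (S : Set V)).Reachable ⟨a, ha⟩ ⟨y, hy⟩)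
      with hX
    have haX : a ∈ X := by
      rw [hX, mem_filter]
      exact ⟨ha, ha, SimpleGraph.Reachable.refl _⟩
    have hbX : b ∉ X := by
      rw [hX, mem_filter]
      rintro ⟨_, _, h2⟩
      exact hcon h2
    obtain ⟨x, hx, y, hy, hxy⟩ := hcut X (filter_subset _ _) ⟨a, haX⟩ (fun e => hbX (e ▸ hb))
    rw [mem_sdiff] at hy
    apply hy.2
    rw [hX, mem_filter] at hx ⊢
    obtain ⟨hx1, hx2, hx3⟩ := hx
    have hyS : y ∈ (S : Set V) := hy.1
    refine ⟨hy.1, hyS, hx3.trans ?_⟩
    apply SimpleGraph.Adj.reachable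
    exact hxy
  obtain ⟨x, hx⟩ := hne
  have hn : Nonempty (S : Set V) := ⟨⟨x, hx⟩⟩
  exact { preconnected := hpre, nonempty := hn }

theorem GM.isMinor {V : Type*} {G : SimpleGraph V} {A : Finset V} {t : ℕ} (h : GM G A t) :
    IsMinor (grid t) G := by
  obtain ⟨μ, hμ⟩ := h
  have hidx : ∀ x : Fin t × Fin t, x.1.val * t + x.2.val < t * t := by
    rintro ⟨i, j⟩
    have h1 : (i.val + 1) * t ≤ t * t := Nat.mul_le_mul_right t i.2
    have h2 := j.2
    have h3 : (i.val + 1) * t = i.val * t + t := by ring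
    show i.val * t + j.val < t * t
    omega
  refine ⟨fun x => (μ (x.1.val * t + x.2.val) : Set V), ?_, ?_, ?_⟩
  · intro x
    exact (hμ.linked _ (hidx x)).connected
  · rintro ⟨i, j⟩ ⟨i', j'⟩ hne
    rw [Finset.disjoint_coe]
    apply hμ.disj _ (hidx _) _ (hidx _)
    intro heq
    apply hne
    simp only at heq
    have h1 := congrArg (fun z => z % t) heq
    have h2 := congrArg (fun z => z / t) heq
    have ht : 0 < t := lt_of_le_of_lt (Nat.zero_le _) i.2
    simp only [Nat.mul_add_mod', Nat.mod_eq_of_lt j.2, Nat.mod_eq_of_lt j'.2] at h1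
    have e1 : (i.val * t + j.val) / t = i.val := by
      rw [mul_comm, Nat.mul_add_div ht, Nat.div_eq_of_lt j.2, add_zero]
    have e2 : (i'.val * t + j'.val) / t = i'.val := by
      rw [mul_comm, Nat.mul_add_div ht, Nat.div_eq_of_lt j'.2, add_zero]
    simp only [e1, e2] at h2
    ext
    · exact h2
    · exact h1
  · have key1 : ∀ (i : Fin t) (j j' : Fin t), j.val + 1 = j'.val →
        ∃ x ∈ μ (i.val * t + j.val), ∃ y ∈ μ (i.val * t + j'.val), G.Adj x y := by
      intro i j j' hjj
      have h1 := hμ.left (i.val * t + j'.val) (hidx (i, j')) (by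
        rw [Nat.mul_add_mod', Nat.mod_eq_of_lt j'.2]; omega)
      rw [show i.val * t + j'.val - 1 = i.val * t + j.val by omega] at h1
      exact h1
    have key2 : ∀ (i i' : Fin t) (j : Fin t), i.val + 1 = i'.val →
        ∃ x ∈ μ (i.val * t + j.val), ∃ y ∈ μ (i'.val * t + j.val), G.Adj x y := by
      intro i i' j hii
      have e : i'.val * t + j.val = i.val * t + j.val + t := by rw [← hii]; ring
      have h1 := hμ.up (i'.val * t + j.val) (hidx (i', j)) (by omega)
      rw [show i'.val * t + j.val - t = i.val * t + j.val by omega] at h1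
      exact h1
    rintro ⟨i, j⟩ ⟨i', j'⟩ hadj
    unfold grid at hadj
    rw [SimpleGraph.boxProd_adj] at hadj
    simp only [SimpleGraph.pathGraph_adj] at hadj
    show ∃ x ∈ (μ (i.val * t + j.val) : Set V), ∃ y ∈ (μ (i'.val * t + j'.val) : Set V), G.Adj x y
    rcases hadj with ⟨h1 | h1, h2⟩ | ⟨h1 | h1, h2⟩
    · subst h2; exact key2 i i' j h1
    · subst h2
      obtain ⟨x, hx, y, hy, hxy⟩ := key2 i' i j h1
      exact ⟨y, hy, x, hx, hxy.symm⟩
    · subst h2; exact key1 i j j' h1
    · subst h2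
      obtain ⟨x, hx, y, hy, hxy⟩ := key1 i j' j h1
      exact ⟨y, hy, x, hx, hxy.symm⟩

theorem sm_univ {n : ℕ} (G : SimpleGraph (Fin n)) : sm G univ = 2 * G.edgeSet.ncard := by
  have h1 := G.sum_degrees_eq_twice_card_edges
  have h2 : G.edgeSet.ncard = G.edgeFinset.card := by
    rw [← SimpleGraph.coe_edgeFinset, Set.ncard_coe_finset]
  rw [h2, ← h1]
  unfold sm dg
  apply Finset.sum_congr rfl
  intro x _
  rw [← SimpleGraph.card_neighborFinset_eq_degree]
  congr 1
  ext y
  simp

end Pool.Agent.GridMinor
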