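import Pool.Agent.Lib_MP_7ab33c.Model

/-!
# Reduction by contraction to a dense host
-/

set_option autoImplicit false

namespace Pool.Agent.GridMinor

open Finset Classical

variable {V : Type*}

theorem sm_del_lt (G : SimpleGraph V) (A : Finset V) (u v : V) (hu : u ∈ A) (hv : v ∈ A)
    (huv : G.Adj u v) : sm (del G u v) A < sm G A := by
  unfold sm
  apply Finset.sum_lt_sum
  · intro x hx
    unfold dg
    apply card_le_card
    intro y hy
    rw [mem_filter] at hy ⊢
    exact ⟨hy.1, del_le G u v hy.2⟩
  · refine ⟨u, hu, ?_⟩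
    unfold dg
    apply card_lt_card
    rw [Finset.ssubset_iff_of_subset]
    · refine ⟨v, mem_filter.2 ⟨hv, huv⟩, ?_⟩
      intro h
      rw [mem_filter] at h
      have h2 := h.2
      unfold del at h2
      rw [SimpleGraph.deleteEdges_adj] at h2
      exact h2.2 rfl
    · intro y hy
      rw [mem_filter] at hy ⊢
      exact ⟨hy.1, del_le G u v hy.2⟩

theorem exists_edge {G : SimpleGraph V} {A : Finset V} (h : 0 < sm G A) :
    ∃ u ∈ A, ∃ v ∈ A, G.Adj u v := by
  by_contra hcon
  push Not at hcon
  have : sm G A = 0 := by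
    unfold sm
    apply Finset.sum_eq_zero
    intro x hx
    unfold dg
    rw [card_eq_zero, filter_eq_empty_iff]
    intro y hy
    exact hcon x hx y hy
  omega

/-- the general reduction principle -/
theorem principle (P : SimpleGraph V → Finset V → Prop)
    (c1 : ∀ G A u v, u ∈ A → v ∈ A → G.Adj u v → P (del G u v) A → P G A)
    (c2 : ∀ G A v, v ∈ A → P G (A.erase v) → P G A)
    (c3 : ∀ G A u v, u ∈ A → v ∈ A → G.Adj u v → P (ctr G u v) (A.erase v) → P G A)
    (F : ℕ → ℝ) (m0 : ℕ) (hF : ∀ m, m0 < m → 0 ≤ F m)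
    (hb : ∀ G A, A.card = m0 → F m0 ≤ (sm G A : ℝ) → P G A)
    (h : ∀ G A, m0 < A.card → F A.card ≤ (sm G A : ℝ) → (sm G A : ℝ) < F A.card + 2 →
      (∀ v ∈ A, (sm G A : ℝ) - 2 * dg G A v < F (A.card - 1)) →
      (∀ u ∈ A, ∀ v ∈ A, G.Adj u v → (sm G A : ℝ) - 2 - 2 * cod G A u v < F (A.card - 1)) →
      P G A) :
    ∀ G A, m0 ≤ A.card → F A.card ≤ (sm G A : ℝ) → P G A := by
  have key : ∀ n s : ℕ, ∀ G A, A.card = n → sm G A = s → m0 ≤ n → F n ≤ (s : ℝ) → P G A := by
    intro n
    induction n using Nat.strong_induction_on with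
    | _ n ihn =>
      intro s
      induction s using Nat.strong_induction_on with
      | _ s ihs =>
        intro G A hA hs hm hFn
        by_cases hn : n = m0
        · exact hb G A (hA.trans hn) (by rw [← hn, hs]; exact hFn)
        have hlt : m0 < n := by omega
        by_cases h1 : F n + 2 ≤ (s : ℝ)
        · have hpos : 0 < sm G A := by
            have := hF n hlt
            have h3 : (0 : ℝ) < (s : ℝ) := by linarith
            rw [hs]; exact_mod_cast h3
          obtain ⟨u, hu, v, hv, huv⟩ := exists_edge hpos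
          apply c1 G A u v hu hv huv
          refine ihs (sm (del G u v) A) ?_ _ A hA rfl hm ?_
          · rw [← hs]; exact sm_del_lt G A u v hu hv huv
          · have h4 := sm_del G A u v hu hv huv
            rw [hs] at h4
            have h5 : (s : ℝ) ≤ (sm (del G u v) A : ℝ) + 2 := by exact_mod_cast h4
            linarith
        · push Not at h1
          by_cases h2 : ∃ v ∈ A, F (n - 1) ≤ (s : ℝ) - 2 * dg G A v
          · obtain ⟨v, hv, h2⟩ := h2
            apply c2 G A v hv
            have hcard : (A.erase v).card = n - 1 := by rw [card_erase_of_mem hv, hA]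
            refine ihn (n - 1) (by omega) (sm G (A.erase v)) G (A.erase v) hcard rfl (by omega) ?_
            have h4 := sm_erase G A v hv
            rw [hs] at h4
            have h5 : (s : ℝ) = (sm G (A.erase v) : ℝ) + 2 * dg G A v := by exact_mod_cast h4
            linarith
          · push Not at h2
            by_cases h3 : ∃ u ∈ A, ∃ v ∈ A, G.Adj u v ∧ F (n - 1) ≤ (s : ℝ) - 2 - 2 * cod G A u v
            · obtain ⟨u, hu, v, hv, huv, h3⟩ := h3
              apply c3 G A u v hu hv huv
              have hcard : (A.erase v).card = n - 1 := by rw [card_erase_of_mem hv, hA]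
              refine ihn (n - 1) (by omega) (sm (ctr G u v) (A.erase v)) _ (A.erase v) hcard rfl
                (by omega) ?_
              have h4 := sm_ctr G A u v hu hv huv
              rw [hs] at h4
              have h5 : (s : ℝ) ≤ (sm (ctr G u v) (A.erase v) : ℝ) + 2 + 2 * cod G A u v := by
                exact_mod_cast h4
              linarith
            · push Not at h3
              subst hA
              subst hs
              exact h G A hlt hFn h1 h2 h3
  intro G A h1 h2
  exact key A.card (sm G A) G A rfl rfl h1 h2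

/-- The numerical condition under which a host consisting of a vertex of degree `d`, all of whose
edges lie in at least `δ` triangles, together with a universal vertex, contains the grid. -/
def EE (d δ t : ℕ) : Prop :=
  t * t ≤ δ + 3 ∧ (5 * d < 6 * δ + 6 ∨ (t * t + t ≤ δ + 4 ∧ 2 * (t * t + t) + 3 * d ≤ 6 * δ + 10))

/-- The embedding lemma, as a statement. -/
def EmbedLemma (V : Type*) (t : ℕ) : Prop :=
  ∀ (G : SimpleGraph V) (X : Finset V) (p : ℕ),
    (∀ x ∈ X, ((X.erase x).filter (fun y => ¬ G.Adj x y)).card ≤ p) → t * t ≤ X.card →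
    (6 * p + 2 < X.card ∨ (t * t + t + p ≤ X.card + 1 ∧
      2 * (t * t + t) + 6 * p + 2 ≤ 3 * X.card)) → GM G X t

/-- the host found at a vertex `w` of degree `d` in `B`, with `v` universal -/
theorem host {t : ℕ} (hE : EmbedLemma V t) {G : SimpleGraph V} {B : Finset V} {v w : V}
    (hv : v ∉ B) (hvB : ∀ x ∈ B, G.Adj v x) (hw : w ∈ B) (δ : ℕ)
    (hcod : ∀ x ∈ B, G.Adj w x → δ ≤ cod G B w x) (hd : δ + 1 ≤ dg G B w)
    (hEE : EE (dg G B w) δ t) : GM G (insert v B) t := by
  set N := B.filter (fun y => G.Adj w y) with hN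
  have hNd : N.card = dg G B w := rfl
  have hwN : w ∉ N := fun h => (G.loopless.irrefl w) (mem_filter.1 h).2
  have hvN : v ∉ N := fun h => hv (mem_filter.1 h).1
  have hvw : v ≠ w := fun h => hv (h ▸ hw)
  have hvwN : v ∉ insert w N := by
    rw [mem_insert]; push Not; exact ⟨hvw, hvN⟩
  have hcard : (insert v (insert w N)).card = dg G B w + 2 := by
    rw [card_insert_of_notMem hvwN, card_insert_of_notMem hwN, hNd]
  have hsub : insert v (insert w N) ⊆ insert v B := by
    apply insert_subset_insert
    apply insert_subset hw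
    exact filter_subset _ _
  apply GM.mono le_rfl hsub
  apply hE G _ (dg G B w - 1 - δ)
  · intro x hx
    rw [mem_insert, mem_insert] at hx
    rcases hx with rfl | rfl | hx
    · -- v
      have : ((insert x (insert w N)).erase x).filter (fun y => ¬ G.Adj x y) = ∅ := by
        rw [filter_eq_empty_iff]
        intro y hy
        rw [mem_erase, mem_insert, mem_insert] at hy
        rw [not_not]
        rcases hy.2 with h | h | h
        · exact absurd h hy.1
        · rw [h]; exact hvB w hw
        · exact hvB y (mem_filter.1 h).1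
      rw [this, card_empty]; omega
    · have : ((insert v (insert x N)).erase x).filter (fun y => ¬ G.Adj x y) = ∅ := by
        rw [filter_eq_empty_iff]
        intro y hy
        rw [mem_erase, mem_insert, mem_insert] at hy
        rw [not_not]
        rcases hy.2 with h | h | h
        · rw [h]; exact (hvB x hw).symm
        · exact absurd h hy.1
        · exact (mem_filter.1 h).2
      rw [this, card_empty]; omega
    · have hxB := (mem_filter.1 hx).1
      have hwx := (mem_filter.1 hx).2
      have hc := hcod x hxB hwx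
      have hsub2 : ((insert v (insert w N)).erase x).filter (fun y => ¬ G.Adj x y) ⊆
          (N.erase x) \ (B.filter (fun y => G.Adj w y ∧ G.Adj x y)) := by
        intro y hy
        rw [mem_filter, mem_erase, mem_insert, mem_insert] at hy
        rw [mem_sdiff, mem_erase]
        obtain ⟨⟨h1, h2⟩, h3⟩ := hy
        rcases h2 with h | h | h
        · exfalso; rw [h] at h3; exact h3 (hvB x hxB).symm
        · exfalso; rw [h] at h3; exact h3 hwx.symm
        · exact ⟨⟨h1, h⟩, fun h' => h3 (mem_filter.1 h').2.2⟩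
      have hsub3 : B.filter (fun y => G.Adj w y ∧ G.Adj x y) ⊆ N.erase x := by
        intro y hy
        rw [mem_filter] at hy
        rw [mem_erase, hN, mem_filter]
        exact ⟨fun h => (G.loopless.irrefl x) (h ▸ hy.2.2), hy.1, hy.2.1⟩
      have h1 := card_le_card hsub2
      rw [card_sdiff_of_subset hsub3, card_erase_of_mem hx, hNd] at h1
      have h2 : (B.filter (fun y => G.Adj w y ∧ G.Adj x y)).card = cod G B w x := rfl
      rw [h2] at h1
      omega
  · rw [hcard]
    have := hEE.1
    omega
  · rw [hcard]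
    rcases hEE.2 with h | ⟨h1, h2⟩
    · left; omega
    · right
      constructor <;> omega

/-- second level: a vertex universal to `B` and many edges in `B` -/
theorem levelS {t : ℕ} (hE : EmbedLemma V t) (f : ℕ → ℝ) (m0 : ℕ) (M : ℕ)
    (hf0 : ∀ m, m0 < m → 0 ≤ f m)
    (hbase : ((m0 : ℝ) * (m0 - 1) < 2 * f m0))
    (hmono : ∀ m, m0 < m → f (m - 1) ≤ f m)
    (hstep : ∀ m, m0 < m → m ≤ M → ∀ d δ : ℕ, (d : ℝ) * m < 2 * f m + 2 →
      f m - f (m - 1) - 1 < (δ : ℝ) → δ + 1 ≤ d → EE d δ t)
    (G : SimpleGraph V) (B : Finset V) (v : V) (hm : m0 ≤ B.card) (hM : B.card ≤ M)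
    (hs : 2 * f B.card ≤ (sm G B : ℝ)) (hv : v ∉ B) (hvB : ∀ x ∈ B, G.Adj v x) :
    GM G (insert v B) t := by
  have key := principle (V := V)
    (fun G B => B.card ≤ M → v ∉ B → (∀ x ∈ B, G.Adj v x) → GM G (insert v B) t)
    ?_ ?_ ?_ (fun m => 2 * f m) m0 ?_ ?_ ?_ G B hm hs hM hv hvB
  · exact key
  · -- c1
    intro G A a b ha hb hab hP hM hv hvA
    apply GM.mono (del_le G a b) (Subset.refl _)
    apply hP hM hv
    intro x hx
    unfold del
    rw [SimpleGraph.deleteEdges_adj]
    refine ⟨hvA x hx, ?_⟩
    intro h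
    rw [Set.mem_singleton_iff, Sym2.eq_iff] at h
    rcases h with h | h
    · exact hv (h.1 ▸ ha)
    · exact hv (h.1 ▸ hb)
  · -- c2
    intro G A a ha hP hM hv hvA
    have : (A.erase a).card ≤ A.card := card_le_card (erase_subset _ _)
    exact GM.mono le_rfl (insert_subset_insert _ (erase_subset _ _))
      (hP (this.trans hM) (fun h => hv (mem_of_mem_erase h)) (fun x hx => hvA x (mem_of_mem_erase hx)))
  · -- c3
    intro G A a b ha hb hab hP hM hv hvA
    have : (A.erase b).card ≤ A.card := card_le_card (erase_subset _ _)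
    have hvb : v ≠ b := fun h => hv (h ▸ hb)
    apply GM.of_ctr (u := a) (v := b) (mem_insert_of_mem hb) hab
    have e : (insert v A).erase b = insert v (A.erase b) := by
      rw [erase_insert_of_ne hvb]
    rw [e]
    apply hP (this.trans hM) (fun h => hv (mem_of_mem_erase h))
    intro x hx
    rw [mem_erase] at hx
    exact ⟨fun h => hv (h ▸ hx.2), hvb, hx.1, Or.inl (hvA x hx.2)⟩
  · intro m hm
    have := hf0 m hm
    positivity
  · -- base
    intro G A hA hF
    exfalso
    have h1 : sm G A ≤ A.card * (A.card - 1) := by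
      unfold sm
      calc ∑ x ∈ A, dg G A x ≤ ∑ x ∈ A, (A.card - 1) := by
            apply Finset.sum_le_sum
            intro x hx
            unfold dg
            rw [← card_erase_of_mem hx]
            apply card_le_card
            intro y hy
            rw [mem_filter] at hy
            exact mem_erase.2 ⟨hy.2.ne.symm, hy.1⟩
        _ = A.card * (A.card - 1) := by rw [Finset.sum_const, smul_eq_mul]
    rw [hA] at h1
    have h2 : (sm G A : ℝ) ≤ (m0 : ℝ) * (m0 - 1) := by
      rcases Nat.eq_zero_or_pos m0 with h0 | h0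
      · subst h0
        have : sm G A = 0 := by simpa using h1
        rw [this]; norm_num
      · have h3 : ((m0 - 1 : ℕ) : ℝ) = (m0 : ℝ) - 1 := by
          rw [Nat.cast_sub h0]; norm_num
        rw [← h3]
        exact_mod_cast h1
    linarith
  · -- main
    intro G A hm hs1 hs2 hvd hcd hM hv hvA
    have hne : A.Nonempty := by
      rw [← card_pos]; omega
    obtain ⟨w, hw, hwmin⟩ := Finset.exists_min_image A (fun x => dg G A x) hne
    have hsum : A.card * dg G A w ≤ sm G A := by
      unfold sm
      rw [← smul_eq_mul, ← Finset.sum_const]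
      exact Finset.sum_le_sum hwmin
    have hsumR : (dg G A w : ℝ) * A.card < 2 * f A.card + 2 := by
      have : ((A.card * dg G A w : ℕ) : ℝ) ≤ (sm G A : ℝ) := by exact_mod_cast hsum
      push_cast at this
      linarith
    have hmn := hmono A.card hm
    set r := f A.card - f (A.card - 1) - 1 with hr
    -- the threshold
    set δ : ℕ := (⌊r⌋ + 1).toNat with hδ
    have hfl : (0 : ℤ) ≤ ⌊r⌋ + 1 := by
      have h1 : (-1 : ℤ) ≤ ⌊r⌋ := by
        rw [Int.le_floor]; push_cast; linarith
      omega
    have hδZ : (δ : ℤ) = ⌊r⌋ + 1 := Int.toNat_of_nonneg hfl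
    have hδ1 : r < (δ : ℝ) := by
      have h1 := Int.lt_floor_add_one r
      have h2 : (δ : ℝ) = ((δ : ℤ) : ℝ) := by push_cast; rfl
      rw [h2, hδZ]; push_cast; exact h1
    have hδ2 : (δ : ℝ) ≤ r + 1 := by
      have h1 := Int.floor_le r
      have h2 : (δ : ℝ) = ((δ : ℤ) : ℝ) := by push_cast; rfl
      rw [h2, hδZ]; push_cast; linarith
    have hcod : ∀ x ∈ A, G.Adj w x → δ ≤ cod G A w x := by
      intro x hx hwx
      have h1 := hcd w hw x hx hwx
      have h2 : r < (cod G A w x : ℝ) := by rw [hr]; linarith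
      have h3 : ⌊r⌋ < (cod G A w x : ℤ) := by
        rw [Int.floor_lt]; exact_mod_cast h2
      omega
    have hdd : δ + 1 ≤ dg G A w := by
      have h1 := hvd w hw
      have h2 : (δ : ℝ) < (dg G A w : ℝ) := by linarith
      have h3 : δ < dg G A w := by exact_mod_cast h2
      omega
    exact host hE hv hvA hw δ hcod hdd (hstep A.card hm hM _ _ hsumR hδ1 hdd)

/-- first level -/
theorem levelT {t : ℕ} (hE : EmbedLemma V t) (f : ℕ → ℝ) (m0 K : ℕ) (hK : 1 ≤ K)
    (hf0 : ∀ m, m0 < m → 0 ≤ f m) (hm0 : m0 ≤ K)
    (hbase : ((m0 : ℝ) * (m0 - 1) < 2 * f m0))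
    (hmono : ∀ m, m0 < m → f (m - 1) ≤ f m)
    (hstep : ∀ m, m0 < m → m ≤ 2 * K → ∀ d δ : ℕ, (d : ℝ) * m < 2 * f m + 2 →
      f m - f (m - 1) - 1 < (δ : ℝ) → δ + 1 ≤ d → EE d δ t)
    (hstart : ∀ n : ℕ, K < n → n ≤ 2 * K → 2 * f n ≤ (n : ℝ) * K)
    (G : SimpleGraph V) (A : Finset V) (hA : 1 ≤ A.card)
    (hs : 2 * K * A.card ≤ sm G A) : GM G A t := by
  apply principle (V := V) (fun G A => GM G A t) ?_ ?_ ?_ (fun m => 2 * (K : ℝ) * m) 1 ?_ ?_ ?_
    G A hA (by exact_mod_cast hs)
  · intro G A a b _ _ _ hP
    exact GM.mono (del_le G a b) (Subset.refl _) hP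
  · intro G A a _ hP
    exact GM.mono le_rfl (erase_subset _ _) hP
  · intro G A a b _ hb hab hP
    exact GM.of_ctr hb hab hP
  · intro m _
    positivity
  · intro G A hA hF
    exfalso
    obtain ⟨x, hx⟩ := card_eq_one.1 hA
    have : sm G A = 0 := by
      unfold sm
      apply Finset.sum_eq_zero
      intro y hy
      unfold dg
      rw [card_eq_zero, filter_eq_empty_iff]
      intro z hz hyz
      rw [hx, mem_singleton] at hy hz
      rw [hy, hz] at hyz
      exact (G.loopless.irrefl x) hyz
    rw [this] at hF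
    have : (1 : ℝ) ≤ K := by exact_mod_cast hK
    norm_num at hF
    linarith
  · intro G A hm hs1 hs2 hvd hcd
    have hK1 : (1 : ℝ) ≤ K := by exact_mod_cast hK
    have hcm : ((A.card - 1 : ℕ) : ℝ) = (A.card : ℝ) - 1 := by
      rw [Nat.cast_sub (by omega)]; norm_num
    -- a vertex of small degree
    have hex : ∃ v ∈ A, dg G A v ≤ 2 * K := by
      by_contra hcon
      push Not at hcon
      have h1 : ∑ x ∈ A, (2 * K + 1) ≤ sm G A := Finset.sum_le_sum (fun x hx => hcon x hx)
      rw [Finset.sum_const, smul_eq_mul] at h1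
      have h2 : ((A.card * (2 * K + 1) : ℕ) : ℝ) ≤ (sm G A : ℝ) := by exact_mod_cast h1
      push_cast at h2
      have h3 : (2 : ℝ) ≤ A.card := by exact_mod_cast hm
      nlinarith
    obtain ⟨v, hv, hvdeg⟩ := hex
    set N := A.filter (fun y => G.Adj v y) with hN
    have hNd : N.card = dg G A v := rfl
    have hlow : K < N.card := by
      have h1 := hvd v hv
      rw [hcm] at h1
      have h2 : (K : ℝ) < (dg G A v : ℝ) := by nlinarith
      rw [hNd]; exact_mod_cast h2
    have hcodK : ∀ x ∈ N, K ≤ dg G N x := by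
      intro x hx
      have hxA := (mem_filter.1 hx).1
      have hvx := (mem_filter.1 hx).2
      have h1 := hcd v hv x hxA hvx
      rw [hcm] at h1
      have h2 : (K : ℝ) - 1 < (cod G A v x : ℝ) := by nlinarith
      have h3 : (K : ℤ) - 1 < (cod G A v x : ℤ) := by exact_mod_cast h2
      have h4 : cod G A v x = dg G N x := by
        unfold cod dg
        rw [hN, filter_filter]
      rw [← h4]
      omega
    have hsN : N.card * K ≤ sm G N := by
      unfold sm
      rw [← smul_eq_mul, ← Finset.sum_const]
      exact Finset.sum_le_sum hcodK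
    have hvN : v ∉ N := fun h => (G.loopless.irrefl v) (mem_filter.1 h).2
    have hvNa : ∀ x ∈ N, G.Adj v x := fun x hx => (mem_filter.1 hx).2
    have hgm := levelS hE f m0 (2 * K) hf0 hbase hmono hstep G N v (by omega)
      (by rw [hNd]; exact hvdeg) ?_ hvN hvNa
    · exact GM.mono le_rfl (insert_subset hv (filter_subset _ _)) hgm
    · have h1 := hstart N.card hlow (by rw [hNd]; exact hvdeg)
      have h2 : ((N.card * K : ℕ) : ℝ) ≤ (sm G N : ℝ) := by exact_mod_cast hsN
      push_cast at h2
      linarith

end Pool.Agent.GridMinor
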