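import Pool.Agent.Lib_MP_7ab33c.Small

/-!
# Analytic potential for large t
-/

set_option autoImplicit false

namespace Pool.Agent.GridMinor

open Finset Classical

theorem sum_inv_le (m n : ℕ) (hm : 2 ≤ m) (hmn : m ≤ n) :
    ∑ j ∈ Ico m n, (1 : ℝ) / j ≤ Real.log (n - 1) - Real.log (m - 1) := by
  induction n, hmn using Nat.le_induction with
  | base => simp
  | succ n hn ih =>
    rw [Finset.sum_Ico_succ_top hn]
    have hn2 : (2 : ℝ) ≤ n := by exact_mod_cast hm.trans hn
    have h1 : (1 : ℝ) / n ≤ Real.log n - Real.log (n - 1) := by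
      rw [← Real.log_div (by linarith) (by linarith)]
      have h2 : Real.log (((n : ℝ) - 1) / n) ≤ ((n : ℝ) - 1) / n - 1 :=
        Real.log_le_sub_one_of_pos (div_pos (by linarith) (by linarith))
      have h3 : Real.log (((n : ℝ) - 1) / n) = - Real.log ((n : ℝ) / (n - 1)) := by
        rw [← Real.log_inv, inv_div]
      have h4 : ((n : ℝ) - 1) / n - 1 = - (1 / n) := by
        have : (n : ℝ) ≠ 0 := by linarith
        field_simp
        ring
      linarith
    push_cast
    have h5 : (n : ℝ) + 1 - 1 = n := by ring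
    rw [h5]
    linarith

theorem grid_large {V : Type*} {t : ℕ} (ht : 40 ≤ t) (G : SimpleGraph V) (A : Finset V)
    (hA : 1 ≤ A.card) (hs : 2 * (41 * (t * t) / 20) * A.card ≤ sm G A) : GM G A t := by
  -- parameters
  obtain ⟨a, ha⟩ : ∃ a, a = t * t := ⟨_, rfl⟩
  have ha40 : 40 * t ≤ a := by rw [ha]; exact Nat.mul_le_mul_right t ht
  have ha1600 : 1600 ≤ a := by omega
  rw [← ha] at hs
  obtain ⟨K, hKdef⟩ : ∃ K, K = 41 * a / 20 := ⟨_, rfl⟩
  rw [← hKdef] at hs
  have hK1 : 20 * K ≤ 41 * a := by rw [hKdef]; exact Nat.mul_div_le _ _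
  have hK2 : 41 * a < 20 * K + 20 := by omega
  obtain ⟨m1, hm1def⟩ : ∃ m1, m1 = 151 * a / 100 := ⟨_, rfl⟩
  have hm1a : 100 * m1 ≤ 151 * a := by rw [hm1def]; exact Nat.mul_div_le _ _
  have hm1b : 151 * a < 100 * m1 + 100 := by omega
  obtain ⟨m0, hm0def⟩ : ∃ m0, m0 = 41 * a / 40 := ⟨_, rfl⟩
  have hm0a : 40 * m0 ≤ 41 * a := by rw [hm0def]; exact Nat.mul_div_le _ _
  have hm0b : 41 * a < 40 * m0 + 40 := by omega
  -- real versions
  have rA : (1600 : ℝ) ≤ a := by exact_mod_cast ha1600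
  have rt : 40 * (t : ℝ) ≤ a := by exact_mod_cast ha40
  have rK1 : 20 * (K : ℝ) ≤ 41 * a := by exact_mod_cast hK1
  have rK2 : 41 * (a : ℝ) < 20 * K + 20 := by exact_mod_cast hK2
  have rm1a : 100 * (m1 : ℝ) ≤ 151 * a := by exact_mod_cast hm1a
  have rm1b : 151 * (a : ℝ) < 100 * m1 + 100 := by exact_mod_cast hm1b
  have rm0a : 40 * (m0 : ℝ) ≤ 41 * a := by exact_mod_cast hm0a
  have rm0b : 41 * (a : ℝ) < 40 * m0 + 40 := by exact_mod_cast hm0b
  obtain ⟨T, hT⟩ : ∃ T : ℝ, T = (a : ℝ) + t := ⟨_, rfl⟩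
  have hTa : 40 * T ≤ 41 * a := by rw [hT]; linarith
  have ht0 : (0 : ℝ) ≤ t := by positivity
  have hT0 : 0 ≤ T := by rw [hT]; linarith
  -- the potential
  set S : ℕ → ℝ := fun m => ∑ j ∈ Ico m (2 * K), (1 : ℝ) / j with hS
  set g : ℕ → ℝ := fun m => (K : ℝ) / 2 - T / 3 * S m with hg
  set s2 : ℝ := g m1 + T / 3 with hs2
  set f : ℕ → ℝ := fun m => if m1 ≤ m then m * g m else s2 * m - m1 * T / 3 with hf
  have hS0 : ∀ m, 0 ≤ S m := fun m => Finset.sum_nonneg (fun j _ => by positivity)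
  have hSm1 : S m1 ≤ 1 := by
    have h1 := sum_inv_le m1 (2 * K) (by omega) (by omega)
    have h2 : Real.log (((2 * K : ℕ) : ℝ) - 1) ≤ Real.log (Real.exp 1 * ((m1 : ℝ) - 1)) := by
      apply Real.log_le_log
      · push_cast; linarith
      · have he := Real.exp_one_gt_d9
        push_cast
        have : (2.7182818283 : ℝ) * ((m1 : ℝ) - 1) ≤ Real.exp 1 * ((m1 : ℝ) - 1) :=
          mul_le_mul_of_nonneg_right he.le (by linarith)
        linarith
    rw [Real.log_mul (Real.exp_pos 1).ne' (by linarith), Real.log_exp] at h2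
    have h3 : S m1 = ∑ j ∈ Ico m1 (2 * K), (1 : ℝ) / j := rfl
    rw [h3]
    linarith
  have hSanti : ∀ m, m1 ≤ m → S m ≤ S m1 := by
    intro m hm
    apply Finset.sum_le_sum_of_subset_of_nonneg
    · intro j hj
      rw [Finset.mem_Ico] at hj ⊢
      exact ⟨hm.trans hj.1, hj.2⟩
    · intro j _ _; positivity
  have hg1 : ∀ m, m1 ≤ m → g m1 ≤ g m := by
    intro m hm
    have := hSanti m hm
    simp only [hg]
    have : T / 3 * S m ≤ T / 3 * S m1 := mul_le_mul_of_nonneg_left this (by linarith)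
    linarith
  have hgK : ∀ m, g m ≤ (K : ℝ) / 2 := by
    intro m
    simp only [hg]
    have : 0 ≤ T / 3 * S m := mul_nonneg (by linarith) (hS0 m)
    linarith
  have hglow : (K : ℝ) / 2 - T / 3 ≤ g m1 := by
    simp only [hg]
    have : T / 3 * S m1 ≤ T / 3 * 1 := mul_le_mul_of_nonneg_left hSm1 (by linarith)
    linarith
  have hgpos : 0 ≤ g m1 := by linarith
  have hg23 : 2 * T / 3 - 3 ≤ g m1 := by linarith
  -- differences
  have hSdiff : ∀ m, 2 ≤ m → m ≤ 2 * K → S (m - 1) = S m + 1 / ((m : ℝ) - 1) := by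
    intro m h2 hm
    simp only [hS]
    rw [Finset.sum_eq_sum_Ico_succ_bot (by omega : m - 1 < 2 * K)]
    rw [show m - 1 + 1 = m by omega]
    have : ((m - 1 : ℕ) : ℝ) = (m : ℝ) - 1 := by rw [Nat.cast_sub (by omega)]; norm_num
    rw [this]; ring
  have hfdiff1 : ∀ m, m1 < m → m ≤ 2 * K → f m - f (m - 1) = g m + T / 3 := by
    intro m h1 h2
    simp only [hf]
    rw [if_pos (by omega), if_pos (by omega)]
    have h3 := hSdiff m (by omega) h2
    simp only [hg]
    rw [h3]
    have h4 : ((m - 1 : ℕ) : ℝ) = (m : ℝ) - 1 := by rw [Nat.cast_sub (by omega)]; norm_num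
    rw [h4]
    have h5 : (m : ℝ) - 1 ≠ 0 := by
      have : (m1 : ℝ) < m := by exact_mod_cast h1
      linarith
    field_simp
    ring
  have hfdiff2 : ∀ m, 1 ≤ m → m ≤ m1 → f m - f (m - 1) = s2 := by
    intro m h0 h1
    simp only [hf]
    have h4 : ((m - 1 : ℕ) : ℝ) = (m : ℝ) - 1 := by rw [Nat.cast_sub h0]; norm_num
    rw [if_neg (by omega : ¬ m1 ≤ m - 1), h4]
    by_cases hm : m1 ≤ m
    · have hmm : m = m1 := le_antisymm h1 hm
      rw [if_pos hm, hmm, hs2]
      ring
    · rw [if_neg hm]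
      ring
  have hfdiff3 : ∀ m, 2 * K < m → f (m - 1) ≤ f m := by
    intro m h1
    simp only [hf]
    rw [if_pos (by omega), if_pos (by omega)]
    have e1 : S m = 0 := by
      simp only [hS]; rw [Finset.Ico_eq_empty (by omega)]; simp
    have e2 : S (m - 1) = 0 := by
      simp only [hS]; rw [Finset.Ico_eq_empty (by omega)]; simp
    simp only [hg]
    rw [e1, e2]
    have h4 : ((m - 1 : ℕ) : ℝ) = (m : ℝ) - 1 := by rw [Nat.cast_sub (by omega)]; norm_num
    rw [h4]
    have : (0 : ℝ) ≤ K := by positivity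
    nlinarith
  -- apply the main reduction
  refine levelT' (by omega) f m0 K (by omega) (by omega) ?_ ?_ ?_ ?_ G A hA hs
  · -- base
    simp only [hf]
    rw [if_neg (by omega)]
    have h1 : (K : ℝ) / 2 ≤ s2 := by rw [hs2]; linarith
    have h2 : (K : ℝ) / 2 * m0 ≤ s2 * m0 := mul_le_mul_of_nonneg_right h1 (by positivity)
    have h3 : (m1 : ℝ) * T / 3 ≤ 151 * a / 100 * (41 * a / 40) / 3 := by
      have : (m1 : ℝ) * T ≤ (151 * a / 100) * (41 * a / 40) :=
        mul_le_mul (by linarith) (by linarith) hT0 (by positivity)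
      linarith
    have h4 : (41 * (a : ℝ) / 20 - 1) / 2 * m0 ≤ (K : ℝ) / 2 * m0 := by
      apply mul_le_mul_of_nonneg_right _ (by positivity)
      linarith
    have hm0p : (0 : ℝ) ≤ m0 := by positivity
    nlinarith
  · intro m hm
    by_cases h1 : 2 * K < m
    · exact hfdiff3 m h1
    · by_cases h2 : m1 < m
      · have h3 := hfdiff1 m h2 (by omega)
        have h4 := hg1 m h2.le
        linarith
      · have h3 := hfdiff2 m (by omega) (by omega)
        have : 0 ≤ s2 := by rw [hs2]; linarith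
        linarith
  · -- step
    intro m hm hm2 d δ hd hδ _
    have hmr : (2 : ℝ) ≤ m := by exact_mod_cast (by omega : 2 ≤ m)
    -- common facts: exists γ ≥ g m1 with f m ≤ m γ and f m - f (m-1) = γ + T/3
    obtain ⟨γ, hγ1, hγ2, hγ3⟩ : ∃ γ : ℝ, g m1 ≤ γ ∧ f m ≤ m * γ ∧ f m - f (m - 1) = γ + T / 3 := by
      by_cases h2 : m1 < m
      · refine ⟨g m, hg1 m h2.le, ?_, hfdiff1 m h2 hm2⟩
        simp only [hf]
        rw [if_pos h2.le]
      · refine ⟨g m1, le_rfl, ?_, ?_⟩
        · simp only [hf]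
          by_cases h3 : m1 ≤ m
          · have : m = m1 := by omega
            rw [if_pos h3, this]
          · rw [if_neg h3, hs2]
            have : (m : ℝ) ≤ m1 := by exact_mod_cast (by omega : m ≤ m1)
            nlinarith
        · rw [hfdiff2 m (by omega) (by omega), hs2]
    have h5 : (d : ℝ) * m < 2 * (m * γ) + 2 := by linarith
    have h6 : (d : ℝ) < 2 * γ + 1 := by
      by_contra hcon
      push Not at hcon
      nlinarith
    have h7 : γ + T / 3 - 1 < (δ : ℝ) := by linarith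
    refine ⟨?_, Or.inr ⟨?_, ?_⟩⟩
    · have : ((t * t : ℕ) : ℝ) < (δ : ℝ) + 4 := by
        rw [← ha]; linarith
      have : t * t < δ + 4 := by exact_mod_cast this
      omega
    · have : ((t * t + t : ℕ) : ℝ) < (δ : ℝ) + 4 := by
        push_cast
        have e : (t : ℝ) * t = a := by rw [ha]; push_cast; ring
        rw [e]; linarith
      have : t * t + t < δ + 4 := by exact_mod_cast this
      omega
    · have : ((2 * (t * t + t) + 3 * d : ℕ) : ℝ) < 6 * (δ : ℝ) + 11 := by
        push_cast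
        have e : (t : ℝ) * t = a := by rw [ha]; push_cast; ring
        rw [e]; linarith
      have : 2 * (t * t + t) + 3 * d < 6 * δ + 11 := by exact_mod_cast this
      omega
  · -- start
    intro n hn1 hn2
    simp only [hf]
    rw [if_pos (by omega)]
    have h1 := hgK n
    have : (n : ℝ) * g n ≤ n * (K / 2) := mul_le_mul_of_nonneg_left h1 (by positivity)
    linarith

end Pool.Agent.GridMinor
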