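import Mathlib

/-!
# Partial grid models and contractions
-/

set_option autoImplicit false

namespace Pool.Agent.GridMinor

open Finset Classical

variable {V : Type*}

/-- nonempty, and not splittable into two parts without an edge between them -/
def Linked (G : SimpleGraph V) (S : Finset V) : Prop :=
  S.Nonempty ∧ ∀ X ⊆ S, X.Nonempty → X ≠ S → ∃ x ∈ X, ∃ y ∈ S \ X, G.Adj x y

/-- a model, by branch sets inside `A`, of the first `q` positions (in row-major order) of the
grid with `t` columns -/
structure PM (G : SimpleGraph V) (A : Finset V) (t q : ℕ) (μ : ℕ → Finset V) : Prop where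
  sub : ∀ r < q, μ r ⊆ A
  linked : ∀ r < q, Linked G (μ r)
  disj : ∀ r < q, ∀ s < q, r ≠ s → Disjoint (μ r) (μ s)
  left : ∀ r < q, r % t ≠ 0 → ∃ x ∈ μ (r - 1), ∃ y ∈ μ r, G.Adj x y
  up : ∀ r < q, t ≤ r → ∃ x ∈ μ (r - t), ∃ y ∈ μ r, G.Adj x y

/-- a full model of the `t × t` grid inside `A` -/
def GM (G : SimpleGraph V) (A : Finset V) (t : ℕ) : Prop := ∃ μ, PM G A t (t * t) μ

theorem Linked.mono {G G' : SimpleGraph V} (h : G' ≤ G) {S : Finset V} (hS : Linked G' S) :
    Linked G S := by
  refine ⟨hS.1, fun X hX hX1 hX2 => ?_⟩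
  obtain ⟨x, hx, y, hy, hxy⟩ := hS.2 X hX hX1 hX2
  exact ⟨x, hx, y, hy, h hxy⟩

theorem GM.mono {G G' : SimpleGraph V} {A A' : Finset V} {t : ℕ} (h : G' ≤ G) (hA : A' ⊆ A)
    (hM : GM G' A' t) : GM G A t := by
  obtain ⟨μ, hμ⟩ := hM
  refine ⟨μ, ⟨fun r hr => (hμ.sub r hr).trans hA, fun r hr => (hμ.linked r hr).mono h, hμ.disj,
    fun r hr h1 => ?_, fun r hr h1 => ?_⟩⟩
  · obtain ⟨x, hx, y, hy, hxy⟩ := hμ.left r hr h1
    exact ⟨x, hx, y, hy, h hxy⟩
  · obtain ⟨x, hx, y, hy, hxy⟩ := hμ.up r hr h1
    exact ⟨x, hx, y, hy, h hxy⟩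

/-- contraction of the edge `u v`: `v` becomes isolated and `u` inherits its neighbours -/
def ctr (G : SimpleGraph V) (u v : V) : SimpleGraph V where
  Adj x y := x ≠ y ∧ x ≠ v ∧ y ≠ v ∧ (G.Adj x y ∨ (x = u ∧ G.Adj v y) ∨ (y = u ∧ G.Adj v x))
  symm := ⟨by
    rintro x y ⟨h1, h2, h3, h4⟩
    refine ⟨h1.symm, h3, h2, ?_⟩
    rcases h4 with h | h | h
    · exact Or.inl h.symm
    · exact Or.inr (Or.inr h)
    · exact Or.inr (Or.inl h)⟩
  loopless := ⟨by
    rintro x ⟨h1, _⟩
    exact h1 rfl⟩

theorem ctr_adj {G : SimpleGraph V} {u v x y : V} : (ctr G u v).Adj x y ↔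
    x ≠ y ∧ x ≠ v ∧ y ≠ v ∧ (G.Adj x y ∨ (x = u ∧ G.Adj v y) ∨ (y = u ∧ G.Adj v x)) := Iff.rfl

/-- expansion of a branch set -/
noncomputable def expd (u v : V) (S : Finset V) : Finset V := if u ∈ S then insert v S else S

theorem sub_expd (u v : V) (S : Finset V) : S ⊆ expd u v S := by
  unfold expd; split_ifs
  · exact subset_insert _ _
  · exact Subset.refl _

theorem adj_expd {G : SimpleGraph V} {u v : V} {S T : Finset V}
    (h : ∃ x ∈ S, ∃ y ∈ T, (ctr G u v).Adj x y) :
    ∃ x ∈ expd u v S, ∃ y ∈ expd u v T, G.Adj x y := by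
  obtain ⟨x, hx, y, hy, h1, h2, h3, h4⟩ := h
  rcases h4 with h | ⟨h5, h6⟩ | ⟨h5, h6⟩
  · exact ⟨x, sub_expd _ _ _ hx, y, sub_expd _ _ _ hy, h⟩
  · subst h5
    refine ⟨v, ?_, y, sub_expd _ _ _ hy, h6⟩
    unfold expd; rw [if_pos hx]; exact mem_insert_self _ _
  · subst h5
    refine ⟨x, sub_expd _ _ _ hx, v, ?_, h6.symm⟩
    unfold expd; rw [if_pos hy]; exact mem_insert_self _ _

theorem linked_expd {G : SimpleGraph V} {u v : V} (huv : G.Adj u v) {S : Finset V}
    (hv : v ∉ S) (hS : Linked (ctr G u v) S) : Linked G (expd u v S) := by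
  refine ⟨hS.1.mono (sub_expd _ _ _), ?_⟩
  by_cases hu : u ∈ S
  · unfold expd
    rw [if_pos hu]
    intro X hX hX1 hX2
    by_cases hsplit : (u ∈ X ↔ v ∈ X)
    · -- project
      have hXS : X.erase v ⊆ S := by
        intro x hx
        rw [mem_erase] at hx
        exact (mem_insert.1 (hX hx.2)).resolve_left hx.1
      have hne : (X.erase v).Nonempty := by
        by_cases hvX : v ∈ X
        · exact ⟨u, mem_erase.2 ⟨fun h => hv (h ▸ hu), hsplit.2 hvX⟩⟩
        · obtain ⟨x, hx⟩ := hX1
          exact ⟨x, mem_erase.2 ⟨fun h => hvX (h ▸ hx), hx⟩⟩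
      have hneq : X.erase v ≠ S := by
        intro h
        apply hX2
        have huX : u ∈ X := by
          have : u ∈ X.erase v := h ▸ hu
          exact (mem_erase.1 this).2
        have hvX := hsplit.1 huX
        rw [← h, insert_erase hvX]
      obtain ⟨x, hx, y, hy, h1, h2, h3, h4⟩ := hS.2 _ hXS hne hneq
      rw [mem_erase] at hx
      rw [mem_sdiff, mem_erase] at hy
      have hyX : y ∉ X := fun h => hy.2 ⟨h3, h⟩
      rcases h4 with h | ⟨h5, h6⟩ | ⟨h5, h6⟩
      · exact ⟨x, hx.2, y, mem_sdiff.2 ⟨mem_insert_of_mem hy.1, hyX⟩, h⟩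
      · subst h5
        exact ⟨v, hsplit.1 hx.2, y, mem_sdiff.2 ⟨mem_insert_of_mem hy.1, hyX⟩, h6⟩
      · subst h5
        have hvX : v ∉ X := fun h => hyX (hsplit.2 h)
        exact ⟨x, hx.2, v, mem_sdiff.2 ⟨mem_insert_self _ _, hvX⟩, h6.symm⟩
    · by_cases huX : u ∈ X
      · have hvX : v ∉ X := fun h => hsplit ⟨fun _ => h, fun _ => huX⟩
        exact ⟨u, huX, v, mem_sdiff.2 ⟨mem_insert_self _ _, hvX⟩, huv⟩
      · have hvX : v ∈ X := by
          by_contra h
          exact hsplit ⟨fun h' => absurd h' huX, fun h' => absurd h' h⟩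
        exact ⟨v, hvX, u, mem_sdiff.2 ⟨mem_insert_of_mem hu, huX⟩, huv.symm⟩
  · unfold expd
    rw [if_neg hu]
    intro X hX hX1 hX2
    obtain ⟨x, hx, y, hy, h1, h2, h3, h4⟩ := hS.2 X hX hX1 hX2
    rcases h4 with h | ⟨h5, h6⟩ | ⟨h5, h6⟩
    · exact ⟨x, hx, y, hy, h⟩
    · exact absurd (h5 ▸ hX hx) hu
    · exact absurd (h5 ▸ (mem_sdiff.1 hy).1) hu

theorem GM.of_ctr {G : SimpleGraph V} {A : Finset V} {t : ℕ} {u v : V}
    (hv : v ∈ A) (huv : G.Adj u v) (hM : GM (ctr G u v) (A.erase v) t) : GM G A t := by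
  obtain ⟨μ, hμ⟩ := hM
  have hvn : ∀ r < t * t, v ∉ μ r := fun r hr h => (mem_erase.1 (hμ.sub r hr h)).1 rfl
  refine ⟨fun r => expd u v (μ r), ⟨?_, ?_, ?_, ?_, ?_⟩⟩
  · intro r hr x hx
    unfold expd at hx
    split_ifs at hx
    · rcases mem_insert.1 hx with h | h
      · rw [h]; exact hv
      · exact mem_of_mem_erase (hμ.sub r hr h)
    · exact mem_of_mem_erase (hμ.sub r hr hx)
  · intro r hr
    exact linked_expd huv (hvn r hr) (hμ.linked r hr)
  · intro r hr s hs hrs
    have hd := hμ.disj r hr s hs hrs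
    unfold expd
    split_ifs with h1 h2 h2
    · exact absurd (Finset.disjoint_left.1 hd h1 h2) id
    · rw [Finset.disjoint_insert_left]
      exact ⟨hvn s hs, hd⟩
    · rw [Finset.disjoint_insert_right]
      exact ⟨hvn r hr, hd⟩
    · exact hd
  · intro r hr h1
    exact adj_expd (hμ.left r hr h1)
  · intro r hr h1
    exact adj_expd (hμ.up r hr h1)

/-- degree of `x` in `A` -/
noncomputable def dg (G : SimpleGraph V) (A : Finset V) (x : V) : ℕ := (A.filter (fun y => G.Adj x y)).card
/-- degree sum in `A` -/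
noncomputable def sm (G : SimpleGraph V) (A : Finset V) : ℕ := ∑ x ∈ A, dg G A x
/-- number of common neighbours in `A` -/
noncomputable def cod (G : SimpleGraph V) (A : Finset V) (u v : V) : ℕ :=
  (A.filter (fun y => G.Adj u y ∧ G.Adj v y)).card

theorem dg_erase (G : SimpleGraph V) (A : Finset V) (v x : V) (hv : v ∈ A) :
    dg G A x = dg G (A.erase v) x + (if G.Adj x v then 1 else 0) := by
  unfold dg
  have e : (A.erase v).filter (fun y => G.Adj x y) = (A.filter (fun y => G.Adj x y)).erase v := by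
    ext y
    simp only [mem_filter, mem_erase]
    tauto
  rw [e]
  split_ifs with h
  · have hm : v ∈ A.filter (fun y => G.Adj x y) := mem_filter.2 ⟨hv, h⟩
    rw [card_erase_of_mem hm]
    have : 0 < (A.filter (fun y => G.Adj x y)).card := card_pos.2 ⟨v, hm⟩
    omega
  · rw [erase_eq_of_notMem (fun h' => h (mem_filter.1 h').2)]; rfl

theorem sm_erase (G : SimpleGraph V) (A : Finset V) (v : V) (hv : v ∈ A) :
    sm G A = sm G (A.erase v) + 2 * dg G A v := by
  unfold sm
  rw [← Finset.add_sum_erase A _ hv]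
  have h1 : ∑ x ∈ A.erase v, dg G A x = ∑ x ∈ A.erase v, dg G (A.erase v) x +
      ∑ x ∈ A.erase v, (if G.Adj x v then 1 else 0) := by
    rw [← Finset.sum_add_distrib]
    exact Finset.sum_congr rfl (fun x _ => dg_erase G A v x hv)
  have h2 : ∑ x ∈ A.erase v, (if G.Adj x v then 1 else 0) = dg G A v := by
    rw [← Finset.card_filter]
    unfold dg
    congr 1
    ext y
    simp only [mem_filter, mem_erase]
    constructor
    · rintro ⟨⟨_, h⟩, h'⟩; exact ⟨h, h'.symm⟩
    · rintro ⟨h, h'⟩; exact ⟨⟨fun e => (G.loopless.irrefl v) (e ▸ h'), h⟩, h'.symm⟩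
  rw [h1, h2]
  omega

theorem sm_ctr (G : SimpleGraph V) (A : Finset V) (u v : V) (hu : u ∈ A) (hv : v ∈ A)
    (huv : G.Adj u v) : sm G A ≤ sm (ctr G u v) (A.erase v) + 2 + 2 * cod G A u v := by
  have huv' : u ≠ v := huv.ne
  have huB : u ∈ A.erase v := mem_erase.2 ⟨huv', hu⟩
  -- split both sums
  have hL : sm G A = dg G A v + (dg G A u + ∑ x ∈ (A.erase v).erase u, dg G A x) := by
    unfold sm
    rw [← Finset.add_sum_erase A _ hv, ← Finset.add_sum_erase (A.erase v) _ huB]
  have hR : sm (ctr G u v) (A.erase v) = dg (ctr G u v) (A.erase v) u +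
      ∑ x ∈ (A.erase v).erase u, dg (ctr G u v) (A.erase v) x := by
    unfold sm
    rw [← Finset.add_sum_erase (A.erase v) _ huB]
  -- other vertices
  have hx : ∀ x ∈ (A.erase v).erase u, dg G A x ≤ dg (ctr G u v) (A.erase v) x +
      (if G.Adj u x ∧ G.Adj v x then 1 else 0) := by
    intro x hx
    rw [mem_erase, mem_erase] at hx
    obtain ⟨hxu, hxv, hxA⟩ := hx
    have hsub : (A.filter (fun y => G.Adj x y)).erase v ⊆
        (A.erase v).filter (fun y => (ctr G u v).Adj x y) := by
      intro y hy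
      rw [mem_erase, mem_filter] at hy
      rw [mem_filter, mem_erase]
      exact ⟨⟨hy.1, hy.2.1⟩, hy.2.2.ne, hxv, hy.1, Or.inl hy.2.2⟩
    unfold dg
    by_cases h1 : G.Adj x v
    · have hm : v ∈ A.filter (fun y => G.Adj x y) := mem_filter.2 ⟨hv, h1⟩
      by_cases h2 : G.Adj x u
      · rw [if_pos ⟨h2.symm, h1.symm⟩]
        have := card_le_card hsub
        rw [card_erase_of_mem hm] at this
        omega
      · have hsub2 : insert u ((A.filter (fun y => G.Adj x y)).erase v) ⊆
            (A.erase v).filter (fun y => (ctr G u v).Adj x y) := by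
          apply insert_subset _ hsub
          rw [mem_filter, mem_erase]
          exact ⟨⟨huv', hu⟩, hxu, hxv, huv', Or.inr (Or.inr ⟨rfl, h1.symm⟩)⟩
        have h3 : u ∉ (A.filter (fun y => G.Adj x y)).erase v := by
          intro h
          rw [mem_erase, mem_filter] at h
          exact h2 h.2.2
        have := card_le_card hsub2
        rw [card_insert_of_notMem h3, card_erase_of_mem hm] at this
        have h4 : 0 < (A.filter (fun y => G.Adj x y)).card := card_pos.2 ⟨v, hm⟩
        omega
    · have hm : v ∉ A.filter (fun y => G.Adj x y) := fun h => h1 (mem_filter.1 h).2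
      have := card_le_card hsub
      rw [erase_eq_of_notMem hm] at this
      omega
  have hsum : ∑ x ∈ (A.erase v).erase u, dg G A x ≤
      ∑ x ∈ (A.erase v).erase u, dg (ctr G u v) (A.erase v) x + cod G A u v := by
    calc ∑ x ∈ (A.erase v).erase u, dg G A x ≤ ∑ x ∈ (A.erase v).erase u,
          (dg (ctr G u v) (A.erase v) x + (if G.Adj u x ∧ G.Adj v x then 1 else 0)) :=
          Finset.sum_le_sum hx
      _ = ∑ x ∈ (A.erase v).erase u, dg (ctr G u v) (A.erase v) x +
          (((A.erase v).erase u).filter (fun x => G.Adj u x ∧ G.Adj v x)).card := by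
          rw [Finset.sum_add_distrib, Finset.card_filter]
      _ ≤ _ := by
          apply Nat.add_le_add_left
          unfold cod
          apply card_le_card
          intro y hy
          rw [mem_filter, mem_erase, mem_erase] at hy
          exact mem_filter.2 ⟨hy.1.2.2, hy.2⟩
  -- the vertex u
  have huu : dg G A u + dg G A v ≤ dg (ctr G u v) (A.erase v) u + 2 + cod G A u v := by
    unfold dg cod
    have hun : (A.filter (fun y => G.Adj u y)).card + (A.filter (fun y => G.Adj v y)).card =
        (A.filter (fun y => G.Adj u y) ∪ A.filter (fun y => G.Adj v y)).card +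
        (A.filter (fun y => G.Adj u y ∧ G.Adj v y)).card := by
      rw [← card_union_add_card_inter]
      congr 2
      ext y
      simp only [mem_inter, mem_filter]
      tauto
    have hsub : ((A.filter (fun y => G.Adj u y) ∪ A.filter (fun y => G.Adj v y)).erase v).erase u ⊆
        (A.erase v).filter (fun y => (ctr G u v).Adj u y) := by
      intro y hy
      simp only [mem_erase, mem_union, mem_filter] at hy
      rw [mem_filter, mem_erase]
      obtain ⟨h1, h2, h3⟩ := hy
      refine ⟨⟨h2, ?_⟩, Ne.symm h1, huv', h2, ?_⟩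
      · rcases h3 with h3 | h3 <;> exact h3.1
      · rcases h3 with h3 | h3
        · exact Or.inl h3.2
        · exact Or.inr (Or.inl ⟨rfl, h3.2⟩)
    have h1 := card_le_card hsub
    have h2 := pred_card_le_card_erase (s := (A.filter (fun y => G.Adj u y) ∪
      A.filter (fun y => G.Adj v y)).erase v) (a := u)
    have h3 := pred_card_le_card_erase (s := (A.filter (fun y => G.Adj u y) ∪
      A.filter (fun y => G.Adj v y))) (a := v)
    omega
  omega

/-- deletion of the edge `u v` -/
def del (G : SimpleGraph V) (u v : V) : SimpleGraph V := G.deleteEdges {s(u, v)}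

theorem del_le (G : SimpleGraph V) (u v : V) : del G u v ≤ G := SimpleGraph.deleteEdges_le _

theorem sm_del (G : SimpleGraph V) (A : Finset V) (u v : V) (hu : u ∈ A) (hv : v ∈ A)
    (huv : G.Adj u v) : sm G A ≤ sm (del G u v) A + 2 := by
  have huv' : u ≠ v := huv.ne
  have hvB : v ∈ A.erase u := mem_erase.2 ⟨huv'.symm, hv⟩
  have hdg : ∀ x ∈ A, dg G A x ≤ dg (del G u v) A x + (if x = u ∨ x = v then 1 else 0) := by
    intro x hx
    unfold dg
    split_ifs with h
    · have hsub : ∃ z, (A.filter (fun y => G.Adj x y)).erase z ⊆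
          A.filter (fun y => (del G u v).Adj x y) := by
        rcases h with h | h
        · refine ⟨v, fun y hy => ?_⟩
          rw [mem_erase, mem_filter] at hy
          rw [mem_filter]
          refine ⟨hy.2.1, ?_⟩
          unfold del
          rw [SimpleGraph.deleteEdges_adj]
          refine ⟨hy.2.2, ?_⟩
          intro h'
          rw [Set.mem_singleton_iff, Sym2.eq_iff] at h'
          rcases h' with h' | h'
          · exact hy.1 h'.2
          · exact huv' (h.symm.trans h'.1)
        · refine ⟨u, fun y hy => ?_⟩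
          rw [mem_erase, mem_filter] at hy
          rw [mem_filter]
          refine ⟨hy.2.1, ?_⟩
          unfold del
          rw [SimpleGraph.deleteEdges_adj]
          refine ⟨hy.2.2, ?_⟩
          intro h'
          rw [Set.mem_singleton_iff, Sym2.eq_iff] at h'
          rcases h' with h' | h'
          · exact huv' (h'.1.symm.trans h)
          · exact hy.1 h'.2
      obtain ⟨z, hz⟩ := hsub
      have h1 := card_le_card hz
      have h2 := pred_card_le_card_erase (s := A.filter (fun y => G.Adj x y)) (a := z)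
      omega
    · push Not at h
      rw [add_zero]
      apply card_le_card
      intro y hy
      rw [mem_filter] at hy ⊢
      refine ⟨hy.1, ?_⟩
      unfold del
      rw [SimpleGraph.deleteEdges_adj]
      refine ⟨hy.2, ?_⟩
      intro h'
      rw [Set.mem_singleton_iff, Sym2.eq_iff] at h'
      rcases h' with h' | h'
      · exact h.1 h'.1
      · exact h.2 h'.1
  calc sm G A ≤ ∑ x ∈ A, (dg (del G u v) A x + (if x = u ∨ x = v then 1 else 0)) :=
        Finset.sum_le_sum hdg
    _ = sm (del G u v) A + (A.filter (fun x => x = u ∨ x = v)).card := by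
        rw [Finset.sum_add_distrib, Finset.card_filter]; rfl
    _ ≤ sm (del G u v) A + 2 := by
        apply Nat.add_le_add_left
        calc (A.filter (fun x => x = u ∨ x = v)).card ≤ ({u, v} : Finset V).card := by
              apply card_le_card
              intro x hx
              rw [mem_filter] at hx
              simpa using hx.2
          _ ≤ 2 := card_le_two

end Pool.Agent.GridMinor
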