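import Pool.Agent.Lib_MP_7ab33c.Stuck

/-!
# The second phase of the embedding
-/

set_option autoImplicit false

namespace Pool.Agent.GridMinor

open Finset Classical

variable {V : Type*}

/-- the bound for the number of extra vertices used before position `q` -/
def ext (t k c q : ℕ) : ℕ :=
  if q ≤ k then 0 else if q ≤ c then q - k + 1 else if q ≤ k + t then q - k else t

/-- the invariant of the second phase -/
structure Inv (G : SimpleGraph V) (X : Finset V) (t k c : ℕ) (φ : ℕ → V) (F : Finset V) (q : ℕ)
    (μ : ℕ → Finset V) (M : Finset V) : Prop where
  pm : PM G X t q μ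
  msub : M ⊆ F
  new : ∀ r, k ≤ r → r < q → μ r ⊆ M
  old : ∀ r < k, μ r = {φ r}
  card : M.card ≤ (q - k) + ext t k c q

theorem inv_step {G : SimpleGraph V} {X : Finset V} {t k c : ℕ} {φ : ℕ → V} {F : Finset V} {q : ℕ}
    {μ : ℕ → Finset V} {M : Finset V} (ht : 1 ≤ t) (hFX : F ⊆ X) (hkq : k ≤ q)
    (hFu : ∀ r < k, φ r ∉ F)
    (hI : Inv G X t k c φ F q μ M) (S : Finset V) (hS : S ⊆ F \ M) (hL : Linked G S)
    (hleft : q % t ≠ 0 → ∃ x ∈ μ (q - 1), ∃ y ∈ S, G.Adj x y)
    (hup : t ≤ q → ∃ x ∈ μ (q - t), ∃ y ∈ S, G.Adj x y)
    (hcard : S.card + ext t k c q ≤ 1 + ext t k c (q + 1)) :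
    ∃ μ' M', Inv G X t k c φ F (q + 1) μ' M' := by
  refine ⟨Function.update μ q S, M ∪ S, ?_, ?_, ?_, ?_, ?_⟩
  · apply hI.pm.ext ht S ((hS.trans sdiff_subset).trans hFX) hL _ hleft hup
    intro r hr
    by_cases hrk : r < k
    · rw [hI.old r hrk, disjoint_singleton_left]
      intro h
      exact hFu r hrk (mem_sdiff.1 (hS h)).1
    · have h1 := hI.new r (by omega) hr
      apply disjoint_of_subset_left h1
      apply disjoint_of_subset_right hS
      exact disjoint_sdiff
  · exact union_subset hI.msub (hS.trans sdiff_subset)
  · intro r hr1 hr2
    rcases Nat.lt_succ_iff_lt_or_eq.1 hr2 with h1 | h1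
    · rw [Function.update_of_ne (by omega)]
      exact (hI.new r hr1 h1).trans subset_union_left
    · rw [h1, Function.update_self]; exact subset_union_right
  · intro r hr
    rw [Function.update_of_ne (by omega)]
    exact hI.old r hr
  · have h1 := card_union_le M S
    have h2 := hI.card
    omega

theorem phase2 {G : SimpleGraph V} {X : Finset V} {t k p : ℕ} {φ : ℕ → V} (ht : 2 ≤ t)
    (hp : ∀ x ∈ X, ((X.erase x).filter (fun y => ¬ G.Adj x y)).card ≤ p)
    (hN1 : t * t + t + p ≤ X.card + 1) (hN2 : 2 * (t * t + t) + 6 * p + 2 ≤ 3 * X.card)
    (h : Emb G X t k φ) (hk : k < t * t) (hst : ¬ ∃ ψ, Emb G X t (k + 1) ψ) :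
    GM G X t := by
  set F := X \ used φ k with hF
  have hcF : F.card + k = X.card := card_free h
  have htt : t ≤ t * t := Nat.le_mul_self t
  have hFp : p < F.card := by omega
  obtain ⟨hkt, htk⟩ := stuck_two (by omega) hp h hst hFp
  have hFX : F ⊆ X := sdiff_subset
  have hFu : ∀ r < k, φ r ∉ F := fun r hr hh => (mem_sdiff.1 hh).2 (mem_used.2 ⟨r, hr, rfl⟩)
  -- the good bound
  have hgood : ∀ y ∈ F, ∀ C ⊆ F, y ∉ C → 4 * nn G y C + X.card ≤ 6 * p + 2 :=
    fun y hy C hC hyC => stuck_beta (by omega) hp h hst hy hC hyC
  obtain ⟨β, hβ1, hβ2⟩ : ∃ β, (∀ y ∈ F, ∀ C ⊆ F, y ∉ C → nn G y C ≤ β) ∧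
      2 * β + t * t + t ≤ X.card := by
    refine ⟨(6 * p + 2 - X.card) / 4, fun y hy C hC hyC => ?_, ?_⟩
    · have := hgood y hy C hC hyC
      omega
    · have : 4 * ((6 * p + 2 - X.card) / 4) ≤ 6 * p + 2 - X.card := Nat.mul_div_le _ _
      have hle : X.card ≤ 6 * p + 2 := by
        obtain ⟨y, hy⟩ := card_pos.1 (by omega : 0 < F.card)
        have := hgood y hy ∅ (empty_subset _) (notMem_empty y)
        omega
      omega
  -- the multiple of t after k
  set c := (k / t + 1) * t with hc
  have hkdiv : t * (k / t) + k % t = k := Nat.div_add_mod k t
  have hmlt : k % t < t := Nat.mod_lt _ (by omega)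
  have hceq : c = t * (k / t) + t := by rw [hc]; ring
  have hck : k < c := by omega
  have hck2 : c < k + t := by omega
  have hcmod : c % t = 0 := by rw [hc]; exact Nat.mul_mod_left _ _
  have honly : ∀ q, k < q → q < k + t → q % t = 0 → q = c := by
    intro q h1 h2 h3
    obtain ⟨a, ha⟩ := Nat.dvd_of_mod_eq_zero h3
    have h4 : t * (k / t) < t * a := by omega
    have h5 : t * a < t * (k / t + 2) := by rw [mul_add]; omega
    have h6 : k / t < a := Nat.lt_of_mul_lt_mul_left h4
    have h7 : a < k / t + 2 := Nat.lt_of_mul_lt_mul_left h5
    have h8 : a = k / t + 1 := by omega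
    rw [ha, h8, hc]; ring
  -- main induction
  have main : ∀ q, k ≤ q → q ≤ t * t → ∃ μ M, Inv G X t k c φ F q μ M := by
    intro q hkq
    induction q, hkq using Nat.le_induction with
    | base =>
      intro _
      refine ⟨fun q => {φ q}, ∅, h.toPM (by omega), empty_subset _, ?_, fun _ _ => rfl, by simp⟩
      intro r hr1 hr2; omega
    | succ q hkq ih =>
      intro hq
      obtain ⟨μ, M, hI⟩ := ih (by omega)
      have hMF := hI.msub
      have hcM := hI.card
      have hcC : (F \ M).card + M.card = F.card := card_sdiff_add_card_eq_card hMF
      have hCF : F \ M ⊆ F := sdiff_subset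
      set C := F \ M with hC
      have htq : t ≤ q := by omega
      -- case analysis
      by_cases hqk : q = k
      · -- first position
        subst hqk
        have hM0 : M = ∅ := by
          rw [← card_eq_zero]
          have : ext t q c q = 0 := by unfold ext; simp
          omega
        have hext0 : ext t q c q = 0 := by unfold ext; simp
        have hext1 : ext t q c (q + 1) = 2 := by
          unfold ext
          rw [if_neg (by omega), if_pos (by omega)]
          omega
        have hCcard : C.card = F.card := by rw [hC, hM0, sdiff_empty]
        have ha : φ (q - t) ∉ C := fun hh => hFu (q - t) (by omega) (hCF hh)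
        have hb : φ (q - 1) ∉ C := fun hh => hFu (q - 1) (by omega) (hCF hh)
        have hμa : μ (q - t) = {φ (q - t)} := hI.old _ (by omega)
        have hμb : μ (q - 1) = {φ (q - 1)} := hI.old _ (by omega)
        obtain ⟨y, hy, hay⟩ := pick1 (lt_of_le_of_lt
          (nn_le hp (h.mem (q - t) (by omega)) (hCF.trans hFX) ha) (by omega : p < C.card))
        obtain ⟨z, hz, hbz⟩ := pick1 (lt_of_le_of_lt
          (nn_le hp (h.mem (q - 1) (by omega)) (hCF.trans hFX) hb) (by omega : p < C.card))
        by_cases haz : G.Adj (φ (q - t)) z
        · refine inv_step (by omega) hFX le_rfl hFu hI {z} (singleton_subset_iff.2 hz)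
            (linked_single G z) ?_ ?_ ?_
          · intro _
            exact ⟨_, by rw [hμb]; exact mem_singleton_self _, z, mem_singleton_self _, hbz⟩
          · intro _
            exact ⟨_, by rw [hμa]; exact mem_singleton_self _, z, mem_singleton_self _, haz⟩
          · rw [card_singleton, hext0, hext1]; omega
        · have hyz : y ≠ z := fun e => haz (e ▸ hay)
          by_cases hyzA : G.Adj y z
          · refine inv_step (by omega) hFX le_rfl hFu hI (insert y {z})
              (insert_subset hy (singleton_subset_iff.2 hz))
              (linked_insert (linked_single G z) (mem_singleton_self _) hyzA) ?_ ?_ ?_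
            · intro _
              exact ⟨_, by rw [hμb]; exact mem_singleton_self _, z,
                mem_insert_of_mem (mem_singleton_self _), hbz⟩
            · intro _
              exact ⟨_, by rw [hμa]; exact mem_singleton_self _, y, mem_insert_self _ _, hay⟩
            · have := card_insert_le y ({z} : Finset V)
              rw [card_singleton] at this
              rw [hext0, hext1]; omega
          · -- connect through x
            set D := (C.erase y).erase z with hD
            have hDC : D ⊆ C := (erase_subset _ _).trans (erase_subset _ _)
            have hDcard : D.card = C.card - 1 - 1 := by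
              rw [hD, card_erase_of_mem (mem_erase.2 ⟨hyz.symm, hz⟩), card_erase_of_mem hy]
            have hyD : y ∉ D := fun hh => (mem_erase.1 (mem_erase.1 hh).2).1 rfl
            have hzD : z ∉ D := fun hh => (mem_erase.1 hh).1 rfl
            have h1 := hβ1 y (hCF hy) D (hDC.trans hCF) hyD
            have h2 := hβ1 z (hCF hz) D (hDC.trans hCF) hzD
            obtain ⟨x, hx, hyx, hzx⟩ := pick2 (G := G) (a := y) (b := z) (C := D) (by omega)
            refine inv_step (by omega) hFX le_rfl hFu hI (insert y (insert x {z}))
              (insert_subset hy (insert_subset (hDC hx) (singleton_subset_iff.2 hz)))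
              (linked_insert (linked_insert (linked_single G z) (mem_singleton_self _) hzx.symm)
                (mem_insert_self _ _) hyx) ?_ ?_ ?_
            · intro _
              exact ⟨_, by rw [hμb]; exact mem_singleton_self _, z,
                mem_insert_of_mem (mem_insert_of_mem (mem_singleton_self _)), hbz⟩
            · intro _
              exact ⟨_, by rw [hμa]; exact mem_singleton_self _, y, mem_insert_self _ _, hay⟩
            · have e1 := card_insert_le y (insert x ({z} : Finset V))
              have e2 := card_insert_le x ({z} : Finset V)
              rw [card_singleton] at e2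
              rw [hext0, hext1]; omega
      · have hkq' : k < q := by omega
        by_cases hqt : q % t = 0
        · -- first column
          have hmul : q ≤ t * t - t := by
            obtain ⟨a, ha⟩ := Nat.dvd_of_mod_eq_zero hqt
            have h1 : t * a < t * t := by omega
            have h2 : a < t := Nat.lt_of_mul_lt_mul_left h1
            have h3 : t * a ≤ t * (t - 1) := Nat.mul_le_mul_left t (by omega)
            have h4 : t * (t - 1) = t * t - t := by
              rw [Nat.mul_sub]; simp
            omega
          by_cases hold : q - t < k
          · -- upper neighbour old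
            have hqc : q = c := honly q hkq' (by omega) hqt
            have hext : ext t k c q ≤ t := by
              unfold ext
              rw [if_neg (by omega), if_pos (by omega)]
              omega
            have hextle : ext t k c q ≤ ext t k c (q + 1) := by
              unfold ext
              rw [if_neg (by omega), if_pos (by omega), if_neg (by omega), if_neg (by omega),
                if_pos (by omega)]
              omega
            have ha : φ (q - t) ∉ C := fun hh => hFu (q - t) hold (hCF hh)
            have hμa : μ (q - t) = {φ (q - t)} := hI.old _ hold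
            obtain ⟨y, hy, hay⟩ := pick1 (lt_of_le_of_lt
              (nn_le hp (h.mem (q - t) hold) (hCF.trans hFX) ha) (by omega : p < C.card))
            refine inv_step (by omega) hFX hkq hFu hI {y} (singleton_subset_iff.2 hy)
              (linked_single G y) ?_ ?_ ?_
            · intro hh; exact absurd hqt hh
            · intro _
              exact ⟨_, by rw [hμa]; exact mem_singleton_self _, y, mem_singleton_self _, hay⟩
            · rw [card_singleton]; omega
          · -- upper neighbour new
            push Not at hold
            have hnewa := hI.new (q - t) hold (by omega)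
            obtain ⟨a, ha⟩ := (hI.pm.linked (q - t) (by omega)).1
            have haM := hnewa ha
            have haF := hMF haM
            have haC : a ∉ C := fun hh => (mem_sdiff.1 hh).2 haM
            have h1 := hβ1 a haF C hCF haC
            have hext : ext t k c q ≤ t := by
              unfold ext
              split_ifs <;> omega
            have hextle : ext t k c q ≤ ext t k c (q + 1) := by
              unfold ext
              split_ifs <;> omega
            obtain ⟨y, hy, hay⟩ := pick1 (G := G) (a := a) (C := C) (by omega)
            refine inv_step (by omega) hFX hkq hFu hI {y} (singleton_subset_iff.2 hy)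
              (linked_single G y) ?_ ?_ ?_
            · intro hh; exact absurd hqt hh
            · intro _
              exact ⟨a, ha, y, mem_singleton_self _, hay⟩
            · rw [card_singleton]; omega
        · -- left neighbour exists and is new
          have hqne : q ≠ c := fun e => hqt (by rw [e]; exact hcmod)
          have hnewb := hI.new (q - 1) (by omega) (by omega)
          obtain ⟨b, hb⟩ := (hI.pm.linked (q - 1) (by omega)).1
          have hbM := hnewb hb
          have hbF := hMF hbM
          have hbC : b ∉ C := fun hh => (mem_sdiff.1 hh).2 hbM
          have hnb := hβ1 b hbF C hCF hbC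
          by_cases hold : q - t < k
          · -- upper neighbour old
            have hext : ext t k c q ≤ t - 1 := by
              unfold ext
              split_ifs <;> omega
            have hextle : ext t k c q + 1 ≤ ext t k c (q + 1) := by
              unfold ext
              split_ifs <;> omega
            have ha : φ (q - t) ∉ C := fun hh => hFu (q - t) hold (hCF hh)
            have hμa : μ (q - t) = {φ (q - t)} := hI.old _ hold
            obtain ⟨y, hy, hay⟩ := pick1 (lt_of_le_of_lt
              (nn_le hp (h.mem (q - t) hold) (hCF.trans hFX) ha) (by omega : p < C.card))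
            by_cases hby : G.Adj b y
            · refine inv_step (by omega) hFX hkq hFu hI {y} (singleton_subset_iff.2 hy)
                (linked_single G y) ?_ ?_ ?_
              · intro _
                exact ⟨b, hb, y, mem_singleton_self _, hby⟩
              · intro _
                exact ⟨_, by rw [hμa]; exact mem_singleton_self _, y, mem_singleton_self _, hay⟩
              · rw [card_singleton]; omega
            · set D := C.erase y with hD
              have hDC : D ⊆ C := erase_subset _ _
              have hDcard : D.card = C.card - 1 := card_erase_of_mem hy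
              have hyD : y ∉ D := fun hh => (mem_erase.1 hh).1 rfl
              have h1 := hβ1 y (hCF hy) D (hDC.trans hCF) hyD
              have h2 := (nn_mono (G := G) (a := b) hDC).trans hnb
              obtain ⟨z, hz, hyz, hbz⟩ := pick2 (G := G) (a := y) (b := b) (C := D) (by omega)
              refine inv_step (by omega) hFX hkq hFu hI (insert y {z})
                (insert_subset hy (singleton_subset_iff.2 (hDC hz)))
                (linked_insert (linked_single G z) (mem_singleton_self _) hyz) ?_ ?_ ?_
              · intro _
                exact ⟨b, hb, z, mem_insert_of_mem (mem_singleton_self _), hbz⟩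
              · intro _
                exact ⟨_, by rw [hμa]; exact mem_singleton_self _, y, mem_insert_self _ _, hay⟩
              · have := card_insert_le y ({z} : Finset V)
                rw [card_singleton] at this
                omega
          · -- both new
            push Not at hold
            have hnewa := hI.new (q - t) hold (by omega)
            obtain ⟨a, ha⟩ := (hI.pm.linked (q - t) (by omega)).1
            have haM := hnewa ha
            have haF := hMF haM
            have haC : a ∉ C := fun hh => (mem_sdiff.1 hh).2 haM
            have h1 := hβ1 a haF C hCF haC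
            have hext : ext t k c q ≤ t := by
              unfold ext
              split_ifs <;> omega
            have hextle : ext t k c q ≤ ext t k c (q + 1) := by
              unfold ext
              split_ifs <;> omega
            obtain ⟨y, hy, hay, hby⟩ := pick2 (G := G) (a := a) (b := b) (C := C) (by omega)
            refine inv_step (by omega) hFX hkq hFu hI {y} (singleton_subset_iff.2 hy)
              (linked_single G y) ?_ ?_ ?_
            · intro _
              exact ⟨b, hb, y, mem_singleton_self _, hby⟩
            · intro _
              exact ⟨a, ha, y, mem_singleton_self _, hay⟩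
            · rw [card_singleton]; omega
  obtain ⟨μ, M, hI⟩ := main (t * t) (by omega) le_rfl
  exact ⟨μ, hI.pm⟩

/-- the embedding lemma -/
theorem embedLemma (V : Type*) (t : ℕ) (ht : 2 ≤ t) : EmbedLemma V t := by
  intro G X p hp hn hcond
  by_cases hfull : ∃ φ, Emb G X t (t * t) φ
  · obtain ⟨φ, hφ⟩ := hfull
    exact ⟨_, hφ.toPM (by omega)⟩
  · have hX : X.Nonempty := by
      rw [← card_pos]
      have : 0 < t * t := Nat.mul_pos (by omega) (by omega)
      omega
    obtain ⟨x0, _⟩ := hX
    obtain ⟨k, hk, φ, hφ, hst⟩ := stuck_exists ⟨x0⟩ hfull
    rcases hcond with h1 | ⟨h1, h2⟩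
    · exfalso
      have hcF := card_free hφ
      obtain ⟨y, hy⟩ := card_pos.1 (by omega : 0 < (X \ used φ k).card)
      have := stuck_beta (by omega) hp hφ hst hy (empty_subset _) (notMem_empty y)
      omega
    · exact phase2 ht hp h1 h2 hφ hk hst

end Pool.Agent.GridMinor
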