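import Pool.Agent.Lib_MP_7ab33c.Phase

/-!
# Numerical potential for small t
-/

set_option autoImplicit false

namespace Pool.Agent.GridMinor

open Finset Classical

theorem levelT' {V : Type*} {t : ℕ} (ht : 2 ≤ t) (f : ℕ → ℝ) (m0 K : ℕ) (hK : 1 ≤ K)
    (hm0 : m0 ≤ K)
    (hbase : ((m0 : ℝ) * (m0 - 1) < 2 * f m0))
    (hmono : ∀ m, m0 < m → f (m - 1) ≤ f m)
    (hstep : ∀ m, m0 < m → m ≤ 2 * K → ∀ d δ : ℕ, (d : ℝ) * m < 2 * f m + 2 →
      f m - f (m - 1) - 1 < (δ : ℝ) → δ + 1 ≤ d → EE d δ t)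
    (hstart : ∀ n : ℕ, K < n → n ≤ 2 * K → 2 * f n ≤ (n : ℝ) * K)
    (G : SimpleGraph V) (A : Finset V) (hA : 1 ≤ A.card)
    (hs : 2 * K * A.card ≤ sm G A) : GM G A t := by
  have h1 : ∀ m, m0 ≤ m → f m0 ≤ f m := by
    intro m hm
    induction m, hm using Nat.le_induction with
    | base => exact le_rfl
    | succ m hm ih => exact ih.trans (hmono (m + 1) (by omega))
  have h2 : 0 ≤ (m0 : ℝ) * (m0 - 1) := by
    rcases Nat.eq_zero_or_pos m0 with h0 | h0
    · rw [h0]; norm_num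
    · have : (1 : ℝ) ≤ m0 := by exact_mod_cast h0
      nlinarith
  exact levelT (embedLemma V t ht) f m0 K hK (fun m hm => by have := h1 m hm.le; linarith)
    hm0 hbase hmono hstep hstart G A hA hs

/-- least admissible codegree -/
def dl (t d : ℕ) : ℕ :=
  Nat.max (t * t - 3) (Nat.min (5 * d / 6) (Nat.max (t * t + t - 4) ((2 * (t * t + t) + 3 * d - 5) / 6)))

theorem dl_EE {t d d' δ : ℕ} (ht : 2 ≤ t) (hd : d' ≤ d) (hδ : dl t d ≤ δ) : EE d' δ t := by
  have h4 : 4 ≤ t * t := Nat.mul_le_mul ht ht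
  unfold dl at hδ
  have h1 := (Nat.max_le.1 hδ).1
  have h2 := (Nat.max_le.1 hδ).2
  refine ⟨by omega, ?_⟩
  rcases min_le_iff.1 (show min (5 * d / 6) (Nat.max (t * t + t - 4) ((2 * (t * t + t) + 3 * d - 5) / 6)) ≤ _ from h2) with h | h
  · left; omega
  · right
    have h3 := (Nat.max_le.1 h).1
    have h5 := (Nat.max_le.1 h).2
    constructor <;> omega

theorem dl_lower {t d : ℕ} (ht : 3 ≤ t) : d + 1 ≤ 2 * dl t d := by
  have h4 : 9 ≤ t * t := Nat.mul_le_mul ht ht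
  by_contra hcon
  have hδ : dl t d ≤ d / 2 := by omega
  unfold dl at hδ
  have h1 := (Nat.max_le.1 hδ).1
  have h2 := (Nat.max_le.1 hδ).2
  rcases min_le_iff.1 (show min (5 * d / 6) (Nat.max (t * t + t - 4) ((2 * (t * t + t) + 3 * d - 5) / 6)) ≤ _ from h2) with h | h
  · omega
  · have h3 := (Nat.max_le.1 h).1
    have h5 := (Nat.max_le.1 h).2
    omega

/-- the recursion -/
def gs (t K : ℕ) : ℕ → ℕ
  | 0 => K * K
  | i + 1 => gs t K i - dl t ((2 * gs t K i + 1) / (2 * K - i))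

theorem gs_anti (t K : ℕ) : ∀ i j, i ≤ j → gs t K j ≤ gs t K i := by
  intro i j hij
  induction j, hij using Nat.le_induction with
  | base => exact le_rfl
  | succ j _ ih =>
    refine le_trans ?_ ih
    show gs t K j - _ ≤ gs t K j
    exact Nat.sub_le _ _

theorem gs_start (t K : ℕ) (ht : 3 ≤ t) (i0 : ℕ) (hi0 : i0 < 2 * K) :
    ∀ i ≤ i0, 2 * gs t K i ≤ (2 * K - i) * K := by
  intro i
  induction i with
  | zero => intro _; show 2 * (K * K) ≤ (2 * K - 0) * K; rw [Nat.sub_zero]; nlinarith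
  | succ i ih =>
    intro hi
    have h1 := ih (by omega)
    have h3 : gs t K (i + 1) = gs t K i - dl t ((2 * gs t K i + 1) / (2 * K - i)) := rfl
    set e := gs t K i with he
    obtain ⟨m, hm⟩ : ∃ m, 2 * K - i = m + 1 := ⟨2 * K - i - 1, by omega⟩
    have hmi : 2 * K - (i + 1) = m := by omega
    rw [hm] at h3 h1
    set d := (2 * e + 1) / (m + 1) with hd
    rw [hmi, h3]
    have hdl : d + 1 ≤ 2 * dl t d := dl_lower ht
    have hdm : 2 * e + 1 < (d + 1) * (m + 1) := by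
      rw [hd]
      have := Nat.lt_succ_self ((2 * e + 1) / (m + 1))
      exact (Nat.div_lt_iff_lt_mul (by omega)).1 this
    have h5 : (d + 1) * (m + 1) ≤ 2 * dl t d * (m + 1) := Nat.mul_le_mul_right _ hdl
    -- 2 (e - dl) (m+1) ≤ 2 e m ≤ ((m+1) K) m
    rcases Nat.lt_or_ge e (dl t d) with h6 | h6
    · have : e - dl t d = 0 := by omega
      rw [this]; simp
    · obtain ⟨r, hr⟩ := Nat.exists_eq_add_of_le h6
      have hr' : e - dl t d = r := by omega
      rw [hr']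
      have h7 : 2 * r * (m + 1) ≤ m * K * (m + 1) := by
        have h8 : 2 * e * (m + 1) = 2 * dl t d * (m + 1) + 2 * r * (m + 1) := by rw [hr]; ring
        have h9 : 2 * e * m ≤ (m + 1) * K * m := Nat.mul_le_mul_right _ h1
        nlinarith
      exact Nat.le_of_mul_le_mul_right h7 (by omega)

/-- fast evaluation -/
noncomputable def run (t m1 : ℕ) : ℕ → ℕ → ℕ :=
  Nat.rec (fun e => e) (fun n r e =>
    Nat.rec 0 (fun e' _ => r (Nat.succ e')) (Nat.sub e (dl t (Nat.div (2 * e + 1) (m1 + 1 + n)))))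

theorem run_succ (t m1 n e : ℕ) (h : e - dl t ((2 * e + 1) / (m1 + 1 + n)) ≠ 0) :
    run t m1 (n + 1) e = run t m1 n (e - dl t ((2 * e + 1) / (m1 + 1 + n))) := by
  have h1 : run t m1 (n + 1) e = Nat.rec (motive := fun _ => ℕ) 0 (fun e' _ => run t m1 n (Nat.succ e'))
    (Nat.sub e (dl t (Nat.div (2 * e + 1) (m1 + 1 + n)))) := rfl
  rw [h1]
  obtain ⟨e', he'⟩ := Nat.exists_eq_succ_of_ne_zero h
  have h2 : Nat.sub e (dl t (Nat.div (2 * e + 1) (m1 + 1 + n))) = Nat.succ e' := he'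
  rw [h2, he']

theorem run_zero_of (t m1 n e : ℕ) (h : e - dl t ((2 * e + 1) / (m1 + 1 + n)) = 0) :
    run t m1 (n + 1) e = 0 := by
  have h1 : run t m1 (n + 1) e = Nat.rec (motive := fun _ => ℕ) 0 (fun e' _ => run t m1 n (Nat.succ e'))
    (Nat.sub e (dl t (Nat.div (2 * e + 1) (m1 + 1 + n)))) := rfl
  rw [h1]
  have h2 : Nat.sub e (dl t (Nat.div (2 * e + 1) (m1 + 1 + n))) = 0 := h
  rw [h2]
  rfl

theorem run_le (t K m1 : ℕ) (hm1 : m1 ≤ 2 * K) : ∀ n, n ≤ 2 * K - m1 →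
    run t m1 n (gs t K (2 * K - m1 - n)) ≤ gs t K (2 * K - m1) := by
  intro n
  induction n with
  | zero => intro _; exact le_rfl
  | succ n ih =>
    intro hn
    have ih' := ih (by omega)
    obtain ⟨i, hi⟩ : ∃ i, 2 * K - m1 - (n + 1) = i := ⟨_, rfl⟩
    have hi1 : 2 * K - m1 - n = i + 1 := by omega
    have hm : 2 * K - i = m1 + 1 + n := by omega
    rw [hi]
    rw [hi1] at ih'
    have h3 : gs t K (i + 1) = gs t K i - dl t ((2 * gs t K i + 1) / (2 * K - i)) := rfl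
    rw [hm] at h3
    by_cases h : gs t K i - dl t ((2 * gs t K i + 1) / (m1 + 1 + n)) = 0
    · rw [run_zero_of _ _ _ _ h]; exact Nat.zero_le _
    · rw [run_succ _ _ _ _ h, ← h3]; exact ih'

/-- the boolean check -/
noncomputable def chk (t K m1 : ℕ) : Bool :=
  Nat.blt (Nat.mul m1 (Nat.sub m1 1)) (Nat.mul 2 (run t m1 (Nat.sub (Nat.mul 2 K) m1) (Nat.mul K K)))

theorem chk_spec {t K m1 : ℕ} (hm1 : m1 ≤ 2 * K) (h : chk t K m1 = true) :
    m1 * (m1 - 1) < 2 * gs t K (2 * K - m1) := by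
  have h1 : m1 * (m1 - 1) < 2 * run t m1 (2 * K - m1) (K * K) := Nat.le_of_ble_eq_true h
  have h2 := run_le t K m1 hm1 (2 * K - m1) le_rfl
  have h3 : 2 * K - m1 - (2 * K - m1) = 0 := Nat.sub_self _
  rw [h3] at h2
  have h4 : gs t K 0 = K * K := rfl
  rw [h4] at h2
  omega

theorem grid_small {V : Type*} {t K m1 : ℕ} (ht : 2 ≤ t) (hK : 1 ≤ K) (hm1 : 1 ≤ m1)
    (hm1K : m1 ≤ K) (h : chk t K m1 = true)
    (hst : ∀ i ≤ 2 * K - m1, 2 * gs t K i ≤ (2 * K - i) * K)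
    (G : SimpleGraph V) (A : Finset V) (hA : 1 ≤ A.card) (hs : 2 * K * A.card ≤ sm G A) :
    GM G A t := by
  have hc := chk_spec (by omega) h
  have hpos : 0 < gs t K (2 * K - m1) := by
    rcases Nat.eq_zero_or_pos (gs t K (2 * K - m1)) with h0 | h0
    · rw [h0] at hc; omega
    · exact h0
  refine levelT' ht (fun m => (gs t K (2 * K - m) : ℝ)) m1 K hK hm1K ?_ ?_ ?_ ?_ G A hA hs
  · have h1 : ((m1 - 1 : ℕ) : ℝ) = (m1 : ℝ) - 1 := by rw [Nat.cast_sub hm1]; norm_num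
    rw [← h1]
    exact_mod_cast hc
  · intro m _
    have := gs_anti t K (2 * K - m) (2 * K - (m - 1)) (by omega)
    exact_mod_cast this
  · intro m hm hm2 d δ hd hδ _
    obtain ⟨i, hi⟩ : ∃ i, 2 * K - m = i := ⟨_, rfl⟩
    have hi1 : 2 * K - (m - 1) = i + 1 := by omega
    have hmi : 2 * K - i = m := by omega
    simp only [hi, hi1] at hd hδ
    have h3 : gs t K (i + 1) = gs t K i - dl t ((2 * gs t K i + 1) / (2 * K - i)) := rfl
    rw [hmi] at h3
    have h4 : 0 < gs t K (i + 1) := lt_of_lt_of_le hpos (gs_anti t K _ _ (by omega))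
    set e := gs t K i with he
    have h5 : gs t K (i + 1) + dl t ((2 * e + 1) / m) = e := by omega
    have h6 : (gs t K (i + 1) : ℝ) + (dl t ((2 * e + 1) / m) : ℝ) = (e : ℝ) := by exact_mod_cast h5
    have h7 : dl t ((2 * e + 1) / m) ≤ δ := by
      have : (dl t ((2 * e + 1) / m) : ℝ) < (δ : ℝ) + 1 := by linarith
      have : dl t ((2 * e + 1) / m) < δ + 1 := by exact_mod_cast this
      omega
    have h8 : d ≤ (2 * e + 1) / m := by
      rw [Nat.le_div_iff_mul_le (by omega)]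
      have : d * m < 2 * e + 2 := by exact_mod_cast hd
      omega
    exact dl_EE ht h8 h7
  · intro n hn1 hn2
    have h1 := hst (2 * K - n) (by omega)
    have h2 : 2 * K - (2 * K - n) = n := by omega
    rw [h2] at h1
    exact_mod_cast h1

theorem grid_small' {V : Type*} {t K m1 : ℕ} (ht : 3 ≤ t) (hK : 1 ≤ K) (hm1 : 1 ≤ m1)
    (hm1K : m1 ≤ K) (h : chk t K m1 = true)
    (G : SimpleGraph V) (A : Finset V) (hA : 1 ≤ A.card) (hs : 2 * K * A.card ≤ sm G A) :
    GM G A t :=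
  grid_small (by omega) hK hm1 hm1K h (gs_start t K ht (2 * K - m1) (by omega)) G A hA hs

end Pool.Agent.GridMinor
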