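import Pool.Agent.Lib_MP_7ab33c.Embed

/-!
# What it means to be stuck
-/

set_option autoImplicit false

namespace Pool.Agent.GridMinor

open Finset Classical

variable {V : Type*}

/-- grid neighbours -/
def nbr (t w r : ℕ) : Prop := back t w r ∨ back t r w

/-- the (at most four) candidates for grid neighbours -/
def cand (t r : ℕ) : Finset ℕ := {r + 1, r + t, r - 1, r - t}

theorem card_cand (t r : ℕ) : (cand t r).card ≤ 4 := by
  unfold cand
  exact card_le_four

theorem mem_cand {t w r : ℕ} (h : nbr t w r) : w ∈ cand t r := by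
  unfold cand
  rcases h with (⟨_, h⟩ | h) | (⟨_, h⟩ | h)
  · simp only [mem_insert, mem_singleton]; omega
  · simp only [mem_insert, mem_singleton]; omega
  · simp only [mem_insert, mem_singleton]; omega
  · simp only [mem_insert, mem_singleton]; omega

/-- Emb of the empty segment -/
theorem emb_zero (G : SimpleGraph V) (X : Finset V) (t : ℕ) (φ : ℕ → V) : Emb G X t 0 φ :=
  ⟨fun q hq => by omega, fun q hq => by omega, fun q hq => by omega⟩

theorem stuck_exists {G : SimpleGraph V} {X : Finset V} {t N : ℕ} (hV : Nonempty V)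
    (h : ¬ ∃ φ, Emb G X t N φ) :
    ∃ k < N, ∃ φ, Emb G X t k φ ∧ ¬ ∃ ψ, Emb G X t (k + 1) ψ := by
  have hP : ∃ n, ¬ ∃ φ, Emb G X t n φ := ⟨N, h⟩
  set n := Nat.find hP with hn
  have h1 : ¬ ∃ φ, Emb G X t n φ := Nat.find_spec hP
  have h2 : n ≤ N := Nat.find_min' hP h
  have h3 : n ≠ 0 := by
    intro h0
    apply h1
    rw [h0]
    exact ⟨fun _ => Classical.choice hV, emb_zero _ _ _ _⟩
  have h4 : ∃ φ, Emb G X t (n - 1) φ := by
    by_contra hcon
    exact Nat.find_min hP (m := n - 1) (by omega) hcon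
  obtain ⟨φ, hφ⟩ := h4
  refine ⟨n - 1, by omega, φ, hφ, ?_⟩
  rw [show n - 1 + 1 = n by omega]
  exact h1

/-- the used set -/
noncomputable def used (φ : ℕ → V) (k : ℕ) : Finset V := (range k).image φ

theorem mem_used {φ : ℕ → V} {k : ℕ} {y : V} : y ∈ used φ k ↔ ∃ q < k, φ q = y := by
  unfold used; simp [mem_image]

theorem card_used {G : SimpleGraph V} {X : Finset V} {t k : ℕ} {φ : ℕ → V}
    (h : Emb G X t k φ) : (used φ k).card = k := by
  unfold used
  rw [card_image_of_injOn, card_range]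
  intro a ha b hb hab
  rw [Finset.coe_range, Set.mem_Iio] at ha hb
  exact h.inj a ha b hb hab

theorem used_sub {G : SimpleGraph V} {X : Finset V} {t k : ℕ} {φ : ℕ → V}
    (h : Emb G X t k φ) : used φ k ⊆ X := by
  intro y hy
  obtain ⟨q, hq, rfl⟩ := mem_used.1 hy
  exact h.mem q hq

theorem card_free {G : SimpleGraph V} {X : Finset V} {t k : ℕ} {φ : ℕ → V}
    (h : Emb G X t k φ) : (X \ used φ k).card + k = X.card := by
  have h1 := card_sdiff_add_card_eq_card (used_sub h)
  rw [card_used h] at h1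
  exact h1

/-- common neighbourhood of the back neighbours of `k` -/
noncomputable def Wset (G : SimpleGraph V) (X : Finset V) (t k : ℕ) (φ : ℕ → V) : Finset V :=
  X.filter (fun z => ∀ r, back t k r → G.Adj (φ r) z)

theorem W_used {G : SimpleGraph V} {X : Finset V} {t k : ℕ} {φ : ℕ → V} (ht : 1 ≤ t)
    (h : Emb G X t k φ) (hst : ¬ ∃ ψ, Emb G X t (k + 1) ψ) : Wset G X t k φ ⊆ used φ k := by
  intro z hz
  unfold Wset at hz
  rw [mem_filter] at hz
  by_contra hcon
  rw [mem_used] at hcon
  push Not at hcon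
  exact hst ⟨_, h.ext ht hz.1 hcon hz.2⟩

theorem nonnbr_split {G : SimpleGraph V} {X : Finset V} {p : ℕ}
    (hp : ∀ x ∈ X, ((X.erase x).filter (fun y => ¬ G.Adj x y)).card ≤ p)
    {x : V} (hx : x ∈ X) {C D : Finset V} (hC : C ⊆ X) (hD : D ⊆ X) (hCD : Disjoint C D)
    (hxC : x ∉ C) (hxD : x ∉ D) : nn G x C + nn G x D ≤ p := by
  refine le_trans ?_ (hp x hx)
  unfold nn
  rw [← card_union_of_disjoint]
  · apply card_le_card
    intro y hy
    rw [mem_union, mem_filter, mem_filter] at hy
    rw [mem_filter, mem_erase]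
    rcases hy with ⟨h1, h2⟩ | ⟨h1, h2⟩
    · exact ⟨⟨fun h => hxC (h ▸ h1), hC h1⟩, h2⟩
    · exact ⟨⟨fun h => hxD (h ▸ h1), hD h1⟩, h2⟩
  · exact disjoint_filter_filter hCD

theorem nn_le {G : SimpleGraph V} {X : Finset V} {p : ℕ}
    (hp : ∀ x ∈ X, ((X.erase x).filter (fun y => ¬ G.Adj x y)).card ≤ p)
    {x : V} (hx : x ∈ X) {C : Finset V} (hC : C ⊆ X) (hxC : x ∉ C) : nn G x C ≤ p := by
  have := nonnbr_split hp hx hC (empty_subset X) (disjoint_empty_right C) hxC (notMem_empty x)
  omega

/-- the exchange argument: a free vertex has many non-neighbours among used vertices -/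
theorem exchange {G : SimpleGraph V} {X : Finset V} {t k : ℕ} {φ : ℕ → V} (ht : 1 ≤ t)
    (h : Emb G X t k φ) (hst : ¬ ∃ ψ, Emb G X t (k + 1) ψ) {y : V} (hy : y ∈ X \ used φ k) :
    (Wset G X t k φ).card ≤ 4 * nn G y (used φ k) := by
  rw [mem_sdiff] at hy
  have hyf : ∀ q < k, φ q ≠ y := fun q hq e => hy.2 (mem_used.2 ⟨q, hq, e⟩)
  set I := (range k).filter (fun r => ¬ G.Adj y (φ r)) with hI
  set WI := (range k).filter (fun w => φ w ∈ Wset G X t k φ) with hWI
  have hW : (Wset G X t k φ).card ≤ WI.card := by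
    have : Wset G X t k φ ⊆ WI.image φ := by
      intro z hz
      obtain ⟨q, hq, hqz⟩ := mem_used.1 (W_used ht h hst hz)
      rw [mem_image]
      exact ⟨q, mem_filter.2 ⟨mem_range.2 hq, hqz ▸ hz⟩, hqz⟩
    exact (card_le_card this).trans card_image_le
  have hcov : WI ⊆ I.biUnion (fun r => cand t r) := by
    intro w hw
    rw [hWI, mem_filter, mem_range] at hw
    have hz : ∀ r, back t k r → G.Adj (φ r) (φ w) := by
      have := hw.2
      unfold Wset at this
      exact (mem_filter.1 this).2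
    by_contra hcon
    apply hst
    refine ⟨_, h.swap ht hy.1 hyf hw.1 hz ?_⟩
    intro r hr hn
    by_contra hna
    apply hcon
    rw [mem_biUnion]
    exact ⟨r, mem_filter.2 ⟨mem_range.2 hr, hna⟩, mem_cand hn⟩
  have hWI4 : WI.card ≤ 4 * I.card := by
    calc WI.card ≤ (I.biUnion (fun r => cand t r)).card := card_le_card hcov
      _ ≤ I.card * 4 := card_biUnion_le_card_mul _ _ _ (fun r _ => card_cand t r)
      _ = 4 * I.card := by ring
  have hIn : I.card ≤ nn G y (used φ k) := by
    unfold nn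
    apply card_le_card_of_injOn φ
    · intro r hr
      rw [hI, mem_coe, mem_filter, mem_range] at hr
      rw [mem_coe, mem_filter]
      exact ⟨mem_used.2 ⟨r, hr.1, rfl⟩, hr.2⟩
    · intro a ha b hb hab
      rw [hI, mem_coe, mem_filter, mem_range] at ha hb
      exact h.inj a ha.1 b hb.1 hab
  omega

theorem W_lower {G : SimpleGraph V} {X : Finset V} {t k p : ℕ} {φ : ℕ → V} (ht : 1 ≤ t)
    (hp : ∀ x ∈ X, ((X.erase x).filter (fun y => ¬ G.Adj x y)).card ≤ p)
    (h : Emb G X t k φ) : X.card ≤ (Wset G X t k φ).card + 2 * p + 2 := by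
  -- every vertex outside W is a back vertex or a non-neighbour of one
  have hNB : ∀ r, r < k → (insert (φ r) ((X.erase (φ r)).filter (fun y => ¬ G.Adj (φ r) y))).card
      ≤ p + 1 := fun r hr => (card_insert_le _ _).trans (Nat.succ_le_succ (hp _ (h.mem r hr)))
  set S1 : Finset V := if back t k (k - 1) then
    insert (φ (k - 1)) ((X.erase (φ (k - 1))).filter (fun y => ¬ G.Adj (φ (k - 1)) y)) else ∅ with hS1
  set S2 : Finset V := if back t k (k - t) then
    insert (φ (k - t)) ((X.erase (φ (k - t))).filter (fun y => ¬ G.Adj (φ (k - t)) y)) else ∅ with hS2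
  have hc1 : S1.card ≤ p + 1 := by
    rw [hS1]
    split_ifs with hb
    · exact hNB _ (back_lt ht hb)
    · simp
  have hc2 : S2.card ≤ p + 1 := by
    rw [hS2]
    split_ifs with hb
    · exact hNB _ (back_lt ht hb)
    · simp
  have hcov : X ⊆ Wset G X t k φ ∪ (S1 ∪ S2) := by
    intro x hx
    by_cases hxW : x ∈ Wset G X t k φ
    · exact mem_union_left _ hxW
    · apply mem_union_right
      unfold Wset at hxW
      rw [mem_filter] at hxW
      push Not at hxW
      obtain ⟨r, hb, hna⟩ := hxW hx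
      have hmem : x ∈ insert (φ r) ((X.erase (φ r)).filter (fun y => ¬ G.Adj (φ r) y)) := by
        rw [mem_insert]
        by_cases hxr : x = φ r
        · left; exact hxr
        · right
          rw [mem_filter, mem_erase]
          exact ⟨⟨hxr, hx⟩, hna⟩
      rcases id hb with ⟨_, h2⟩ | h2
      · have hr : r = k - 1 := by omega
        apply mem_union_left
        rw [hS1, if_pos (hr ▸ hb), ← hr]
        exact hmem
      · have hr : r = k - t := by omega
        apply mem_union_right
        rw [hS2, if_pos (hr ▸ hb), ← hr]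
        exact hmem
  have h1 := card_le_card hcov
  have h2 := card_union_le (Wset G X t k φ) (S1 ∪ S2)
  have h3 := card_union_le S1 S2
  omega

/-- being stuck: free vertices have few non-neighbours in the free set -/
theorem stuck_beta {G : SimpleGraph V} {X : Finset V} {t k p : ℕ} {φ : ℕ → V} (ht : 1 ≤ t)
    (hp : ∀ x ∈ X, ((X.erase x).filter (fun y => ¬ G.Adj x y)).card ≤ p)
    (h : Emb G X t k φ) (hst : ¬ ∃ ψ, Emb G X t (k + 1) ψ) {y : V} (hy : y ∈ X \ used φ k)
    {C : Finset V} (hC : C ⊆ X \ used φ k) (hyC : y ∉ C) :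
    4 * nn G y C + X.card ≤ 6 * p + 2 := by
  have h1 := exchange ht h hst hy
  have h2 := W_lower ht hp h
  rw [mem_sdiff] at hy
  have h3 := nonnbr_split hp hy.1 (hC.trans sdiff_subset) (used_sub h)
    (disjoint_of_subset_left hC sdiff_disjoint) hyC hy.2
  omega

/-- being stuck at a position with at most one back neighbour forces few free vertices -/
theorem stuck_two {G : SimpleGraph V} {X : Finset V} {t k p : ℕ} {φ : ℕ → V} (ht : 1 ≤ t)
    (hp : ∀ x ∈ X, ((X.erase x).filter (fun y => ¬ G.Adj x y)).card ≤ p)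
    (h : Emb G X t k φ) (hst : ¬ ∃ ψ, Emb G X t (k + 1) ψ) (hF : p < (X \ used φ k).card) :
    k % t ≠ 0 ∧ t ≤ k := by
  by_contra hcon
  -- all back neighbours coincide
  have huniq : ∀ r s, back t k r → back t k s → r = s := by
    intro r s hr hs
    rcases hr with ⟨h1, h2⟩ | h2 <;> rcases hs with ⟨h3, h4⟩ | h4
    · omega
    · exact absurd ⟨h1, by omega⟩ hcon
    · exact absurd ⟨h3, by omega⟩ hcon
    · omega
  by_cases hex : ∃ r, back t k r
  · obtain ⟨r, hr⟩ := hex
    have hrk := back_lt ht hr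
    have hnot : φ r ∉ X \ used φ k := by
      rw [mem_sdiff]; push Not
      intro _
      exact mem_used.2 ⟨r, hrk, rfl⟩
    obtain ⟨y, hy, hya⟩ := pick1 (lt_of_le_of_lt (nn_le hp (h.mem r hrk) sdiff_subset hnot) hF)
    have hyW : y ∈ Wset G X t k φ := by
      unfold Wset
      rw [mem_filter]
      refine ⟨(mem_sdiff.1 hy).1, fun s hs => ?_⟩
      rw [huniq s r hs hr]; exact hya
    exact (mem_sdiff.1 hy).2 (W_used ht h hst hyW)
  · push Not at hex
    obtain ⟨y, hy⟩ := card_pos.1 (lt_of_le_of_lt (Nat.zero_le p) hF)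
    have hyW : y ∈ Wset G X t k φ := by
      unfold Wset
      rw [mem_filter]
      exact ⟨(mem_sdiff.1 hy).1, fun s hs => absurd hs (hex s)⟩
    exact (mem_sdiff.1 hy).2 (W_used ht h hst hyW)

/-- a full embedding gives a model -/
theorem Emb.toPM {G : SimpleGraph V} {X : Finset V} {t k : ℕ} {φ : ℕ → V} (ht : 1 ≤ t)
    (h : Emb G X t k φ) : PM G X t k (fun q => {φ q}) := by
  refine ⟨?_, ?_, ?_, ?_, ?_⟩
  · intro r hr
    rw [singleton_subset_iff]; exact h.mem r hr
  · intro r _; exact linked_single G _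
  · intro r hr s hs hrs
    rw [disjoint_singleton]
    exact fun e => hrs (h.inj r hr s hs e)
  · intro r hr hrt
    have h0 : r ≠ 0 := fun h0 => hrt (by rw [h0]; exact Nat.zero_mod _)
    exact ⟨_, mem_singleton_self _, _, mem_singleton_self _,
      h.adj r hr (r - 1) (Or.inl ⟨hrt, by omega⟩)⟩
  · intro r hr hrt
    exact ⟨_, mem_singleton_self _, _, mem_singleton_self _,
      h.adj r hr (r - t) (Or.inr (by omega))⟩

end Pool.Agent.GridMinor
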